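import Pool.Agent.Helper793.Nir.Sph3
import Pool.Agent.H789R2.FR.Sph
set_option autoImplicit false

/-! # Surface measure of the unit sphere of `ℝ³` in stereographic coordinates -/

namespace Pool.Agent.Y251.SP

open MeasureTheory Set Metric Complex Filter
open Pool.Agent.Helper793.Nir (E3 S2 sig stv ster wt NP ster_coe stv_norm ster_cont stv_cont
  ster_surj ster_ne sig_NP sig_eq sig_univ S2_norm S2_sum rot rot_mp rot_coe rot_inj wt_pos nsq)
open scoped ENNReal NNReal ComplexConjugate Topology RealInnerProductSpace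

theorem wt_meas : Measurable wt := by
  unfold wt
  fun_prop

theorem wt_le (z : ℂ) : wt z ≤ 4 := by
  unfold wt
  rw [div_le_iff₀ (by positivity)]
  have : 0 ≤ ‖z‖ ^ 2 := by positivity
  nlinarith

/-- the surface measure in stereographic coordinates -/
noncomputable def wm : Measure ℂ := volume.withDensity fun z => ENNReal.ofReal (wt z)

theorem wm_lint (H : ℂ → ℝ≥0∞) (hH : Measurable H) :
    ∫⁻ z, H z ∂wm = ∫⁻ z, ENNReal.ofReal (wt z) * H z := by
  unfold wm
  rw [lintegral_withDensity_eq_lintegral_mul _ wt_meas.ennreal_ofReal hH]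
  rfl

theorem wm_le (H : ℂ → ℝ≥0∞) (hH : Measurable H) : ∫⁻ z, H z ∂wm ≤ 4 * ∫⁻ z, H z := by
  rw [wm_lint H hH, ← lintegral_const_mul _ hH]
  refine lintegral_mono fun z => mul_le_mul_left ?_ _
  rw [← ENNReal.ofReal_ofNat]
  exact ENNReal.ofReal_le_ofReal (wt_le z)

theorem sig_map : sig = wm.map ster := by
  ext s hs
  rw [Measure.map_apply ster_cont.measurable hs, sig_eq hs, wm,
    withDensity_apply _ (ster_cont.measurable hs)]

theorem wm_univ : wm univ = ENNReal.ofReal (4 * Real.pi) := by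
  have h1 : wm univ = sig univ := by
    rw [sig_map, Measure.map_apply ster_cont.measurable MeasurableSet.univ, preimage_univ]
  rw [h1, ← sig_univ, ofReal_measureReal]

theorem wm_fin : IsFiniteMeasure wm := ⟨by rw [wm_univ]; exact ENNReal.ofReal_lt_top⟩

theorem wm_ac : wm ≪ volume := withDensity_absolutelyContinuous _ _

theorem ac_wm : (volume : Measure ℂ) ≪ wm := by
  unfold wm
  refine withDensity_absolutelyContinuous' wt_meas.ennreal_ofReal.aemeasurable ?_
  refine Eventually.of_forall fun z => ?_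
  rw [Ne, ENNReal.ofReal_eq_zero, not_le]
  exact wt_pos z

theorem sg_map : Pool.Agent.H789R2.FR.sg 3 = wm.map stv := by
  have h1 : Pool.Agent.H789R2.FR.sg 3 = sig.map Subtype.val := rfl
  rw [h1, sig_map, Measure.map_map measurable_subtype_coe ster_cont.measurable]
  rfl

/-- polar coordinates -/
theorem polar3 (G : E3 → ℝ≥0∞) (hG : Measurable G) :
    ∫⁻ x, G x = ∫⁻ z, (∫⁻ r in Ioi (0 : ℝ), ENNReal.ofReal (r ^ 2) * G (r • stv z)) ∂wm := by
  rw [Pool.Agent.H789R2.FR.polar (by norm_num : 0 < 3) G hG, sg_map, lintegral_map]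
  · have h1 : Measurable fun p : E3 × ℝ => ENNReal.ofReal (p.2 ^ (3 - 1)) * G (p.2 • p.1) :=
      (measurable_snd.pow_const _).ennreal_ofReal.mul
        (hG.comp (measurable_snd.smul measurable_fst))
    exact h1.lintegral_prod_right
  · exact stv_cont.measurable

/-- stereographic projection -/
noncomputable def pr (x : S2) : ℂ :=
  ⟨x.1 0 / (1 - x.1 2), x.1 1 / (1 - x.1 2)⟩

theorem pr_meas : Measurable pr := by
  have h : ∀ i : Fin 3, Measurable fun x : S2 => x.1 i := by
    intro i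
    have : Continuous fun x : S2 => x.1 i := by fun_prop
    exact this.measurable
  have h2 : pr = fun x : S2 => ((x.1 0 / (1 - x.1 2) : ℝ) : ℂ) + ((x.1 1 / (1 - x.1 2) : ℝ) : ℂ) * I := by
    funext x
    unfold pr
    refine Complex.ext ?_ ?_
    · simp only [add_re, ofReal_re, mul_re, I_re, I_im, ofReal_im]
      ring
    · simp only [add_im, ofReal_re, mul_im, I_re, I_im, ofReal_im]
      ring
  rw [h2]
  exact (measurable_ofReal.comp ((h 0).div ((h 2).const_sub 1))).add
    ((measurable_ofReal.comp ((h 1).div ((h 2).const_sub 1))).mul_const I)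

theorem pr_ster (z : ℂ) : pr (ster z) = z := by
  have h : (1 + ‖z‖ ^ 2) ≠ 0 := by positivity
  unfold pr
  simp only [ster_coe, stv]
  apply Complex.ext
  · simp
    field_simp
  · simp
    field_simp

/-- the antipodal map -/
noncomputable def anti (z : ℂ) : ℂ := -(conj z)⁻¹

theorem anti_meas : Measurable anti := (continuous_conj.measurable.inv).neg

theorem anti_norm (z : ℂ) : ‖anti z‖ = ‖z‖⁻¹ := by
  unfold anti
  rw [norm_neg, norm_inv, RCLike.norm_conj]

theorem stv_anti {z : ℂ} (hz : z ≠ 0) : stv (anti z) = -stv z := by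
  have h0 : 0 < ‖z‖ := norm_pos_iff.2 hz
  have hn : (1 + ‖z‖ ^ 2) ≠ 0 := by positivity
  have hre : (anti z).re = -(z.re / ‖z‖ ^ 2) := by
    unfold anti
    rw [neg_re, inv_re, normSq_conj, conj_re, normSq_eq_norm_sq]
  have him : (anti z).im = -(z.im / ‖z‖ ^ 2) := by
    unfold anti
    rw [neg_im, inv_im, normSq_conj, conj_im, normSq_eq_norm_sq]
    ring
  ext i
  unfold stv
  rw [hre, him, anti_norm]
  fin_cases i
  · simp
    field_simp
    ring
  · simp
    field_simp
    ring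
  · simp
    field_simp
    ring

theorem ster_anti {z : ℂ} (hz : z ≠ 0) :
    rot (LinearIsometryEquiv.neg ℝ) (ster z) = ster (anti z) := by
  apply Subtype.ext
  rw [rot_coe, ster_coe, ster_coe, stv_anti hz]
  rfl

theorem wm_ne_zero : ∀ᵐ z ∂wm, z ≠ 0 := by
  have h : ∀ᵐ z : ℂ, z ≠ 0 := by
    rw [ae_iff]
    simp
  exact wm_ac.ae_le h

theorem anti_lint (H : ℂ → ℝ≥0∞) (hH : Measurable H) :
    ∫⁻ z, H (anti z) ∂wm = ∫⁻ z, H z ∂wm := by
  have h1 : ∫⁻ z, H z ∂wm = ∫⁻ y, H (pr y) ∂sig := by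
    rw [sig_map, lintegral_map (f := fun y => H (pr y)) (hH.comp pr_meas) ster_cont.measurable]
    exact lintegral_congr fun z => by rw [pr_ster]
  have h2 : ∫⁻ y, H (pr y) ∂sig = ∫⁻ y, H (pr (rot (LinearIsometryEquiv.neg ℝ) y)) ∂sig :=
    ((rot_mp (LinearIsometryEquiv.neg ℝ)).lintegral_comp (hH.comp pr_meas)).symm
  rw [h1, h2, sig_map, lintegral_map _ ster_cont.measurable]
  · refine lintegral_congr_ae ?_
    filter_upwards [wm_ne_zero] with z hz
    rw [ster_anti hz, pr_ster]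
  · exact (hH.comp pr_meas).comp (rot_mp _).measurable

/-- the cosine of the angle -/
noncomputable def cs (z0 z : ℂ) : ℝ := 1 - 2 * ‖z - z0‖ ^ 2 / ((1 + ‖z0‖ ^ 2) * (1 + ‖z‖ ^ 2))

theorem inner_stv (z0 z : ℂ) : ⟪stv z0, stv z⟫ = cs z0 z := by
  have hn : (1 + ‖z‖ ^ 2) ≠ 0 := by positivity
  have hn0 : (1 + ‖z0‖ ^ 2) ≠ 0 := by positivity
  rw [PiLp.inner_apply, Fin.sum_univ_three]
  unfold stv cs
  rw [nsq (z - z0), sub_re, sub_im]
  simp
  field_simp
  rw [nsq z, nsq z0]
  ring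

theorem cs_cont : Continuous fun p : ℂ × ℂ => cs p.1 p.2 := by
  unfold cs
  have h : ∀ p : ℂ × ℂ, ((1 + ‖p.1‖ ^ 2) * (1 + ‖p.2‖ ^ 2)) ≠ 0 := fun p => by positivity
  exact continuous_const.sub ((by fun_prop : Continuous fun p : ℂ × ℂ =>
    2 * ‖p.2 - p.1‖ ^ 2).div (by fun_prop) h)

theorem cs_symm (z0 z : ℂ) : cs z0 z = cs z z0 := by
  unfold cs
  rw [norm_sub_rev, mul_comm (1 + ‖z0‖ ^ 2)]

theorem cs_abs (z0 z : ℂ) : |cs z0 z| ≤ 1 := by
  rw [← inner_stv]
  have := abs_real_inner_le_norm (stv z0) (stv z)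
  rwa [stv_norm, stv_norm, one_mul] at this

theorem cs_sq (z0 z : ℂ) : 0 ≤ 1 - cs z0 z ^ 2 := by
  have h := cs_abs z0 z
  have h2 : cs z0 z ^ 2 ≤ 1 := (sq_le_one_iff_abs_le_one _).2 h
  linarith

/-- integrals of functions of the angle do not depend on the point -/
theorem zonal (H : ℝ → ℝ≥0∞) (hH : Measurable H) (z0 z1 : ℂ) :
    ∫⁻ z, H (cs z0 z) ∂wm = ∫⁻ z, H (cs z1 z) ∂wm := by
  have key : ∀ z0 : ℂ, ∫⁻ z, H (cs z0 z) ∂wm = ∫⁻ y : S2, H ⟪stv z0, (y : E3)⟫ ∂sig := by
    intro z0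
    rw [sig_map, lintegral_map _ ster_cont.measurable]
    · refine lintegral_congr fun z => ?_
      rw [ster_coe, inner_stv]
    · have : Continuous fun y : S2 => ⟪stv z0, (y : E3)⟫ := by fun_prop
      exact hH.comp this.measurable
  rw [key, key]
  obtain ⟨R, hR⟩ := Pool.Agent.Helper793.Nir.exists_rot (ster z0) (ster z1)
  rw [ster_coe, ster_coe] at hR
  have hm : Measurable fun y : S2 => H ⟪stv z1, (y : E3)⟫ := by
    have : Continuous fun y : S2 => ⟪stv z1, (y : E3)⟫ := by fun_prop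
    exact hH.comp this.measurable
  rw [← (rot_mp R).lintegral_comp hm]
  refine lintegral_congr fun y => ?_
  rw [rot_coe, ← hR, R.inner_map_map]

end Pool.Agent.Y251.SP
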