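import Pool.Agent.Y251.SP.A1
import Pool.Agent.Y251.CP.D3
set_option autoImplicit false

/-! # The approximate identity on the sphere -/

namespace Pool.Agent.Y251.SP

open MeasureTheory Set Metric Complex Filter
open Pool.Agent.Helper793.Nir (wt wt_pos)
open Pool.Agent.Y251.CP (KK KK_int KK_meas jensen)
open scoped ENNReal NNReal ComplexConjugate Topology RealInnerProductSpace

/-- the kernel -/
noncomputable def KS (δ : ℝ) (z0 z : ℂ) : ℝ≥0∞ :=
  ENNReal.ofReal (δ ^ 2 / ((1 - cs z0 z ^ 2) + δ ^ 2) ^ 2)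

theorem KS_meas (δ : ℝ) : Measurable fun p : ℂ × ℂ => KS δ p.1 p.2 := by
  unfold KS
  have h := cs_cont.measurable
  exact ((((measurable_const.sub (h.pow_const 2)).add_const _).pow_const 2).const_div _).ennreal_ofReal

theorem KS_meas' (δ : ℝ) (z0 : ℂ) : Measurable fun z : ℂ => KS δ z0 z := by
  unfold KS
  have h : Continuous fun z => cs z0 z := cs_cont.comp (continuous_const.prodMk continuous_id)
  exact ((((measurable_const.sub (h.measurable.pow_const 2)).add_const _).pow_const 2).const_div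
    _).ennreal_ofReal

theorem KS_symm (δ : ℝ) (z0 z : ℂ) : KS δ z0 z = KS δ z z0 := by
  unfold KS
  rw [cs_symm]

theorem cs_zero (z : ℂ) : 1 - cs 0 z ^ 2 = 4 * ‖z‖ ^ 2 / (1 + ‖z‖ ^ 2) ^ 2 := by
  unfold cs
  have hn : (1 + ‖z‖ ^ 2) ≠ 0 := by positivity
  simp only [sub_zero, norm_zero]
  field_simp
  ring

theorem cs_zero_anti {z : ℂ} (hz : z ≠ 0) : 1 - cs 0 (anti z) ^ 2 = 1 - cs 0 z ^ 2 := by
  have h0 : 0 < ‖z‖ := norm_pos_iff.2 hz
  rw [cs_zero, cs_zero, anti_norm]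
  have hn : (1 + ‖z‖ ^ 2) ≠ 0 := by positivity
  field_simp
  ring

theorem KS_int : ∃ C : ℝ≥0, ∀ δ : ℝ, 0 < δ → ∀ z0 : ℂ, ∫⁻ z, KS δ z0 z ∂wm ≤ C := by
  obtain ⟨K, hK⟩ := KK_int
  refine ⟨2 * (4 * K), fun δ hδ z0 => ?_⟩
  have h1 : ∫⁻ z, KS δ z0 z ∂wm = ∫⁻ z, KS δ 0 z ∂wm := by
    have hH : Measurable fun c : ℝ => ENNReal.ofReal (δ ^ 2 / ((1 - c ^ 2) + δ ^ 2) ^ 2) := by
      fun_prop
    exact zonal _ hH z0 0
  have hm : Measurable fun z => KS δ 0 z := KS_meas' δ 0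
  have hS1 : MeasurableSet {z : ℂ | 1 ≤ ‖z‖} := measurableSet_le measurable_const measurable_norm
  have hS2 : MeasurableSet {z : ℂ | ‖z‖ ≤ 1} := measurableSet_le measurable_norm measurable_const
  have h2 : ∫⁻ z in {z : ℂ | 1 ≤ ‖z‖}, KS δ 0 z ∂wm ≤ ∫⁻ z in {z : ℂ | ‖z‖ ≤ 1}, KS δ 0 z ∂wm := by
    rw [← lintegral_indicator hS1, ← lintegral_indicator hS2, ← anti_lint _ (hm.indicator hS1)]
    refine lintegral_mono_ae ?_
    filter_upwards [wm_ne_zero] with z hz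
    by_cases h : ‖z‖ ≤ 1
    · have h5 : z ∈ {z : ℂ | ‖z‖ ≤ 1} := h
      have h6 : KS δ 0 (anti z) = KS δ 0 z := by
        unfold KS
        rw [cs_zero_anti hz]
      rw [indicator_of_mem h5, ← h6]
      exact indicator_le_self _ _ _
    · have h5 : anti z ∉ {z : ℂ | 1 ≤ ‖z‖} := by
        change ¬ (1 ≤ ‖anti z‖)
        rw [anti_norm, not_le]
        push Not at h
        exact inv_lt_one_of_one_lt₀ h
      rw [indicator_of_notMem h5]
      exact zero_le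
  have h3 : ∫⁻ z in {z : ℂ | ‖z‖ ≤ 1}, KS δ 0 z ∂wm ≤ 4 * K := by
    rw [← lintegral_indicator hS2]
    refine (wm_le _ (hm.indicator hS2)).trans ?_
    gcongr
    refine le_trans (lintegral_mono fun z => ?_) (hK δ hδ)
    by_cases h : ‖z‖ ≤ 1
    · rw [indicator_of_mem (by exact h)]
      unfold KS KK
      apply ENNReal.ofReal_le_ofReal
      rw [cs_zero]
      have h4 : ‖z‖ ^ 2 ≤ 4 * ‖z‖ ^ 2 / (1 + ‖z‖ ^ 2) ^ 2 := by
        rw [le_div_iff₀ (by positivity)]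
        have h5 : (1 + ‖z‖ ^ 2) ^ 2 ≤ 4 := by
          have h6 : ‖z‖ ^ 2 ≤ 1 := by nlinarith [norm_nonneg z]
          nlinarith [norm_nonneg z, sq_nonneg ‖z‖]
        nlinarith [sq_nonneg ‖z‖]
      gcongr
    · rw [indicator_of_notMem (by exact h)]
      exact zero_le
  rw [h1]
  calc ∫⁻ z, KS δ 0 z ∂wm = ∫⁻ z in {z : ℂ | 1 ≤ ‖z‖} ∪ {z : ℂ | ‖z‖ ≤ 1}, KS δ 0 z ∂wm := by
        have : {z : ℂ | 1 ≤ ‖z‖} ∪ {z : ℂ | ‖z‖ ≤ 1} = univ := by
          ext z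
          simp [le_total]
        rw [this, Measure.restrict_univ]
    _ ≤ _ := lintegral_union_le _ _ _
    _ ≤ 4 * K + 4 * K := add_le_add (h2.trans h3) h3
    _ = _ := by
        push_cast
        ring

/-- the approximate identity is bounded on `L^q` -/
theorem conv_KS {q : ℝ} (hq : 1 < q) : ∃ C : ℝ≥0, ∀ δ : ℝ, 0 < δ → ∀ f : ℂ → ℝ≥0∞,
    Measurable f → ∫⁻ z0, (∫⁻ z, f z * KS δ z0 z ∂wm) ^ q ∂wm ≤ C * ∫⁻ z, f z ^ q ∂wm := by
  obtain ⟨K, hK⟩ := KS_int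
  refine ⟨K ^ q, fun δ hδ f hf => ?_⟩
  have hwf := wm_fin
  have hq1 : 0 ≤ q - 1 := by linarith
  have hKm : ∀ z0, Measurable fun z => KS δ z0 z := fun z0 => KS_meas' δ z0
  have hm : Measurable fun p : ℂ × ℂ => f p.2 ^ q * KS δ p.1 p.2 :=
    ((hf.comp measurable_snd).pow_const _).mul (KS_meas δ)
  calc ∫⁻ z0, (∫⁻ z, f z * KS δ z0 z ∂wm) ^ q ∂wm
      ≤ ∫⁻ z0, (∫⁻ z, f z ^ q * KS δ z0 z ∂wm) * (K : ℝ≥0∞) ^ (q - 1) ∂wm := by
        refine lintegral_mono fun z0 => ?_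
        refine (jensen wm hq hf.aemeasurable (hKm z0).aemeasurable).trans ?_
        gcongr
        exact hK δ hδ z0
    _ = (∫⁻ z0, ∫⁻ z, f z ^ q * KS δ z0 z ∂wm ∂wm) * (K : ℝ≥0∞) ^ (q - 1) := by
        rw [lintegral_mul_const']
        exact (ENNReal.rpow_lt_top_of_nonneg hq1 ENNReal.coe_ne_top).ne
    _ = (∫⁻ z, ∫⁻ z0, f z ^ q * KS δ z0 z ∂wm ∂wm) * (K : ℝ≥0∞) ^ (q - 1) := by
        rw [lintegral_lintegral_swap hm.aemeasurable]
    _ ≤ (∫⁻ z, f z ^ q * K ∂wm) * (K : ℝ≥0∞) ^ (q - 1) := by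
        gcongr with z
        simp_rw [KS_symm δ _ z]
        rw [lintegral_const_mul _ (hKm z)]
        gcongr
        exact hK δ hδ z
    _ = _ := by
        rw [lintegral_mul_const _ (hf.pow_const q), mul_assoc, mul_comm,
          ENNReal.coe_rpow_of_nonneg _ (by linarith)]
        congr 1
        have : q = 1 + (q - 1) := by ring
        conv_rhs => rw [this]
        rw [ENNReal.rpow_add_of_nonneg _ _ (by norm_num) hq1, ENNReal.rpow_one]

end Pool.Agent.Y251.SP
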