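import Pool.Agent.Y251.SP.A2
import Pool.Agent.Y251.CP.D4
set_option autoImplicit false

/-! # The exact Cauchy-Pompeiu formula on the sphere -/

namespace Pool.Agent.Y251.SP

open MeasureTheory Set Metric Complex Filter
open Pool.Agent.Helper793.Nir (wt wt_pos)
open Pool.Agent.Y251.CP
open scoped ENNReal NNReal ComplexConjugate Topology RealInnerProductSpace

/-- `1 + z conj z` -/
noncomputable def HH (z : ℂ) : ℂ := 1 + z * conj z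

theorem HH_eq (z : ℂ) : HH z = ((1 + ‖z‖ ^ 2 : ℝ) : ℂ) := by
  unfold HH
  rw [mul_conj, normSq_eq_norm_sq]
  push_cast
  ring

theorem HH_ne (z : ℂ) : HH z ≠ 0 := by
  rw [HH_eq]
  norm_cast
  positivity

/-- the holomorphic polynomial -/
noncomputable def PP (z0 z : ℂ) : ℂ := -(2 / HH z0) * ((z - z0) * (1 + z * conj z0))

theorem PP_norm (z0 z : ℂ) :
    ‖PP z0 z‖ = 2 * ‖z - z0‖ * ‖1 + z * conj z0‖ / (1 + ‖z0‖ ^ 2) := by
  unfold PP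
  rw [norm_mul, norm_neg, norm_div, norm_mul, HH_eq, norm_real, Real.norm_of_nonneg (by positivity)]
  norm_num
  ring

theorem lag (z0 z : ℂ) : ‖1 + z * conj z0‖ ^ 2 + ‖z - z0‖ ^ 2 = (1 + ‖z0‖ ^ 2) * (1 + ‖z‖ ^ 2) := by
  simp only [← normSq_eq_norm_sq, normSq_apply, add_re, add_im, mul_re, mul_im, conj_re, conj_im,
    one_re, one_im, sub_re, sub_im]
  ring

theorem PP_sq (z0 z : ℂ) : ‖PP z0 z‖ ^ 2 = (1 + ‖z‖ ^ 2) ^ 2 * (1 - cs z0 z ^ 2) := by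
  have h := lag z0 z
  have hn : (1 + ‖z‖ ^ 2) ≠ 0 := by positivity
  have hn0 : (1 + ‖z0‖ ^ 2) ≠ 0 := by positivity
  rw [PP_norm, div_pow, mul_pow, mul_pow]
  have h2 : ‖1 + z * conj z0‖ ^ 2 = (1 + ‖z0‖ ^ 2) * (1 + ‖z‖ ^ 2) - ‖z - z0‖ ^ 2 := by linarith
  rw [h2]
  unfold cs
  field_simp
  ring

/-- the cosine as a complex number -/
noncomputable def cc (z0 z : ℂ) : ℂ := 1 - 2 / HH z0 * ((z - z0) * conj (z - z0)) * (HH z)⁻¹

theorem cc_eq (z0 z : ℂ) : cc z0 z = ((cs z0 z : ℝ) : ℂ) := by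
  have hn : ((1 + ‖z‖ ^ 2 : ℝ) : ℂ) ≠ 0 := by
    norm_cast
    positivity
  have hn0 : ((1 + ‖z0‖ ^ 2 : ℝ) : ℂ) ≠ 0 := by
    norm_cast
    positivity
  unfold cc cs
  rw [HH_eq, HH_eq, mul_conj, normSq_eq_norm_sq]
  push_cast at hn hn0 ⊢
  field_simp

theorem HH_dbar (z : ℂ) : HasDbar HH z z := by
  have h := (hasDbar_const 1 z).add ((hasDbar_id z).mul (hasDbar_conj z))
  exact h.congr (by ring)

theorem cc_dbar (z0 z : ℂ) : HasDbar (cc z0) (PP z0 z / HH z ^ 2) z := by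
  have h1 : HasDbar (fun w => w - z0) 0 z :=
    ((hasDbar_id z).sub (hasDbar_const z0 z)).congr (by ring)
  have h2 : HasDbar (fun w => conj (w - z0)) 1 z := by
    have : HasDerivAt (fun w : ℂ => w - z0) 1 z := (hasDerivAt_id z).sub_const z0
    exact (hasDbar_conj_holo this).congr (by simp)
  have h3 := ((h1.mul h2).const_mul (2 / HH z0)).mul ((HH_dbar z).inv (HH_ne z))
  have h4 := (hasDbar_const 1 z).sub h3
  refine HasDbar.congr h4 ?_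
  have hne := HH_ne z
  have hne0 := HH_ne z0
  unfold PP
  have e : HH z = 1 + z * conj z := rfl
  have e2 : conj (z - z0) = conj z - conj z0 := map_sub _ _ _
  field_simp
  rw [e2, e]
  ring

theorem PP_holo (z0 z : ℂ) : HasDerivAt (PP z0)
    (-(2 / HH z0) * (1 + z * conj z0 + (z - z0) * conj z0)) z := by
  have h1 : HasDerivAt (fun w : ℂ => w - z0) 1 z := (hasDerivAt_id z).sub_const z0
  have h2 : HasDerivAt (fun w : ℂ => 1 + w * conj z0) (conj z0) z := by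
    simpa using ((hasDerivAt_id z).mul_const (conj z0)).const_add 1
  have h3 := (h1.mul h2).const_mul (-(2 / HH z0))
  refine h3.congr_deriv ?_
  ring

/-- the denominator -/
noncomputable def DD (δ : ℝ) (z0 z : ℂ) : ℂ := PP z0 z * conj (PP z0 z) + (δ : ℂ) ^ 2 * HH z ^ 2

theorem DD_eq (δ : ℝ) (z0 z : ℂ) :
    DD δ z0 z = (((1 + ‖z‖ ^ 2) ^ 2 * ((1 - cs z0 z ^ 2) + δ ^ 2) : ℝ) : ℂ) := by
  unfold DD
  rw [mul_conj, normSq_eq_norm_sq, PP_sq, HH_eq]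
  push_cast
  ring

theorem den_pos {δ : ℝ} (hδ : 0 < δ) (z0 z : ℂ) : 0 < (1 - cs z0 z ^ 2) + δ ^ 2 := by
  have := cs_sq z0 z
  positivity

theorem DD_ne {δ : ℝ} (hδ : 0 < δ) (z0 z : ℂ) : DD δ z0 z ≠ 0 := by
  rw [DD_eq]
  have := den_pos hδ z0 z
  norm_cast
  positivity

/-- the key algebraic identity -/
theorem key_alg (z0 z : ℂ) :
    HH z * conj (-(2 / HH z0) * (1 + z * conj z0 + (z - z0) * conj z0)) - 2 * z * conj (PP z0 z) =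
      -2 * HH z * cc z0 z := by
  have hne := HH_ne z
  have hne0 := HH_ne z0
  have hc0 : conj (HH z0) = HH z0 := by
    unfold HH
    simp only [map_add, map_one, map_mul, conj_conj]
    ring
  unfold cc PP
  simp only [map_add, map_one, map_mul, conj_conj, map_neg, map_div₀, map_ofNat, map_sub, hc0]
  field_simp
  unfold HH
  ring

theorem Q_dbar {δ : ℝ} (hδ : 0 < δ) (z0 z : ℂ) :
    HasDbar (fun w => conj (PP z0 w) * (DD δ z0 w)⁻¹)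
      (-(2 * (δ : ℂ) ^ 2 * HH z ^ 2 * cc z0 z) / DD δ z0 z ^ 2) z := by
  have h1 := hasDbar_conj_holo (PP_holo z0 z)
  have h2 : HasDbar (PP z0) 0 z := hasDbar_of_holo (PP_holo z0 z).differentiableAt
  have h3 : HasDbar (DD δ z0) _ z :=
    (h2.mul h1).add (((HH_dbar z).mul (HH_dbar z)).const_mul ((δ : ℂ) ^ 2) |>.congr_ev (by
      refine Eventually.of_forall fun w => ?_
      simp only
      ring))
  have h4 := h1.mul (h3.inv (DD_ne hδ z0 z))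
  refine HasDbar.congr h4 ?_
  have hne := DD_ne hδ z0 z
  have hk := key_alg z0 z
  set A := conj (-(2 / HH z0) * (1 + z * conj z0 + (z - z0) * conj z0)) with hA
  have hD : DD δ z0 z = PP z0 z * conj (PP z0 z) + (δ : ℂ) ^ 2 * HH z ^ 2 := rfl
  field_simp
  rw [hD]
  linear_combination (δ : ℂ) ^ 2 * HH z * hk

/-- the test function -/
noncomputable def tS (r δ : ℝ) (z0 z : ℂ) : ℂ :=
  cexp (-(I * r) * cc z0 z) * (conj (PP z0 z) * (DD δ z0 z)⁻¹)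

/-- the multiplier -/
noncomputable def mS (r δ : ℝ) (z0 z : ℂ) : ℂ :=
  cexp (-(I * r) * (cs z0 z : ℝ)) * ((1 - cs z0 z ^ 2) / ((1 - cs z0 z ^ 2) + δ ^ 2) : ℝ)

/-- the error kernel -/
noncomputable def kS (r δ : ℝ) (z0 z : ℂ) : ℂ :=
  cexp (-(I * r) * (cs z0 z : ℝ)) * (δ ^ 2 * cs z0 z / ((1 - cs z0 z ^ 2) + δ ^ 2) ^ 2 : ℝ)

theorem tS_dbar (r : ℝ) {δ : ℝ} (hδ : 0 < δ) (z0 z : ℂ) :
    HasDbar (tS r δ z0) ((wt z / 4 : ℝ) * (-(I * r) * mS r δ z0 z - 2 * kS r δ z0 z)) z := by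
  have h1 := ((cc_dbar z0 z).const_mul (-(I * r))).cexp.mul (Q_dbar hδ z0 z)
  refine HasDbar.congr h1 ?_
  have e1 : PP z0 z * conj (PP z0 z) = (((1 + ‖z‖ ^ 2) ^ 2 * (1 - cs z0 z ^ 2) : ℝ) : ℂ) := by
    rw [mul_conj, normSq_eq_norm_sq, PP_sq]
  have hd := (den_pos hδ z0 z).ne'
  have hn : ((1 + ‖z‖ ^ 2 : ℝ)) ≠ 0 := by positivity
  have e2 : -(I * r) * (PP z0 z / HH z ^ 2) * (conj (PP z0 z) * (DD δ z0 z)⁻¹) =
      (-(I * r)) * ((PP z0 z * conj (PP z0 z)) / HH z ^ 2 * (DD δ z0 z)⁻¹) := by ring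
  rw [mul_assoc (cexp _), e2, e1, DD_eq, HH_eq, cc_eq]
  unfold mS kS wt
  have hd' : ((1 : ℂ) - (cs z0 z : ℂ) ^ 2 + (δ : ℂ) ^ 2) ≠ 0 := by exact_mod_cast hd
  have hn' : ((1 : ℂ) + (‖z‖ : ℂ) ^ 2) ≠ 0 := by exact_mod_cast hn
  push_cast
  field_simp
  ring

theorem exp_cs (r : ℝ) (z0 z : ℂ) : ‖cexp (-(I * r) * (cs z0 z : ℝ))‖ = 1 := by
  have : -(I * (r : ℂ)) * (cs z0 z : ℝ) = ((-(r * cs z0 z) : ℝ) : ℂ) * I := by
    push_cast
    ring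
  rw [this, norm_exp_ofReal_mul_I]

theorem mS_norm (r : ℝ) {δ : ℝ} (hδ : 0 < δ) (z0 z : ℂ) : ‖mS r δ z0 z‖ ≤ 1 := by
  unfold mS
  rw [norm_mul, exp_cs, one_mul, norm_real, Real.norm_of_nonneg
    (div_nonneg (cs_sq z0 z) (den_pos hδ z0 z).le), div_le_one (den_pos hδ z0 z)]
  have : 0 ≤ δ ^ 2 := by positivity
  linarith

theorem kS_norm (r : ℝ) {δ : ℝ} (hδ : 0 < δ) (z0 z : ℂ) : ‖kS r δ z0 z‖ₑ ≤ KS δ z0 z := by
  unfold kS KS
  rw [← ofReal_norm]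
  apply ENNReal.ofReal_le_ofReal
  have hd := den_pos hδ z0 z
  have hsq : |((1 - cs z0 z ^ 2) + δ ^ 2) ^ 2| = ((1 - cs z0 z ^ 2) + δ ^ 2) ^ 2 :=
    abs_of_nonneg (sq_nonneg _)
  have hsd : |δ ^ 2| = δ ^ 2 := abs_of_nonneg (sq_nonneg _)
  rw [norm_mul, exp_cs, one_mul, norm_real, Real.norm_eq_abs, abs_div, abs_mul, hsq, hsd]
  gcongr
  have := cs_abs z0 z
  have h2 : 0 ≤ δ ^ 2 := by positivity
  nlinarith

theorem kS_norm' (r : ℝ) {δ : ℝ} (hδ : 0 < δ) (z0 z : ℂ) : ‖kS r δ z0 z‖ ≤ (δ ^ 2)⁻¹ := by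
  unfold kS
  have hd := den_pos hδ z0 z
  have hsq : |((1 - cs z0 z ^ 2) + δ ^ 2) ^ 2| = ((1 - cs z0 z ^ 2) + δ ^ 2) ^ 2 :=
    abs_of_nonneg (sq_nonneg _)
  have hsd : |δ ^ 2| = δ ^ 2 := abs_of_nonneg (sq_nonneg _)
  rw [norm_mul, exp_cs, one_mul, norm_real, Real.norm_eq_abs, abs_div, abs_mul, hsq, hsd]
  rw [div_le_iff₀ (by positivity)]
  have h1 := cs_abs z0 z
  have h2 : 0 < δ ^ 2 := by positivity
  have h3 := cs_sq z0 z
  calc δ ^ 2 * |cs z0 z| ≤ δ ^ 2 * 1 := by gcongr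
    _ = (δ ^ 2)⁻¹ * (δ ^ 2) ^ 2 := by field_simp
    _ ≤ _ := by
        gcongr
        linarith

/-- the bound for the test function -/
theorem tS_norm (r : ℝ) {δ : ℝ} (hδ : 0 < δ) {z0 : ℂ} (hz0 : z0 ≠ 0) (z : ℂ) :
    ‖tS r δ z0 z‖ₑ ≤ ‖z0 - z‖ₑ⁻¹ + ‖anti z0 - z‖ₑ⁻¹ := by
  by_cases h1 : z = z0
  · rw [h1, sub_self, enorm_zero, ENNReal.inv_zero, top_add]
    exact le_top
  by_cases h2 : z = anti z0
  · rw [h2, sub_self, enorm_zero, ENNReal.inv_zero, add_top]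
    exact le_top
  have a1 : 0 < ‖z0 - z‖ := norm_pos_iff.2 (sub_ne_zero.2 (Ne.symm h1))
  have a2 : 0 < ‖anti z0 - z‖ := norm_pos_iff.2 (sub_ne_zero.2 (Ne.symm h2))
  have a0 : 0 < ‖z0‖ := norm_pos_iff.2 hz0
  have hc0 : conj z0 ≠ 0 := (map_ne_zero _).2 hz0
  have e1 : ‖1 + z * conj z0‖ = ‖z0‖ * ‖anti z0 - z‖ := by
    have : 1 + z * conj z0 = -(conj z0 * (anti z0 - z)) := by
      unfold anti
      field_simp
      ring
    rw [this, norm_neg, norm_mul, RCLike.norm_conj]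
  have e2 : 1 + ‖z0‖ ^ 2 ≤ ‖z0‖ * ‖anti z0 - z‖ + ‖z0‖ * ‖z0 - z‖ := by
    have h3 : ((1 + ‖z0‖ ^ 2 : ℝ) : ℂ) = (1 + z * conj z0) + conj z0 * (z0 - z) := by
      have : (‖z0‖ : ℂ) ^ 2 = z0 * conj z0 := by
        rw [mul_conj, normSq_eq_norm_sq]
        push_cast
        rfl
      push_cast
      rw [this]
      ring
    have h4 : ‖((1 + ‖z0‖ ^ 2 : ℝ) : ℂ)‖ = 1 + ‖z0‖ ^ 2 := by
      rw [norm_real, Real.norm_of_nonneg (by positivity)]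
    rw [← h4, h3]
    refine (norm_add_le _ _).trans ?_
    rw [e1, norm_mul, RCLike.norm_conj]
  have hP : ‖PP z0 z‖ = 2 * ‖z0 - z‖ * (‖z0‖ * ‖anti z0 - z‖) / (1 + ‖z0‖ ^ 2) := by
    rw [PP_norm, e1, norm_sub_rev]
  have hPpos : 0 < ‖PP z0 z‖ := by
    rw [hP]
    positivity
  have h3 : ‖tS r δ z0 z‖ ≤ ‖PP z0 z‖⁻¹ := by
    unfold tS
    have hD : ‖DD δ z0 z‖ = ‖PP z0 z‖ ^ 2 + (1 + ‖z‖ ^ 2) ^ 2 * δ ^ 2 := by
      rw [DD_eq, norm_real, PP_sq, Real.norm_of_nonneg]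
      · ring
      · have := den_pos hδ z0 z
        positivity
    rw [norm_mul, cc_eq, exp_cs, one_mul, norm_mul, norm_inv, RCLike.norm_conj, hD,
      ← div_eq_mul_inv, div_le_iff₀ (by positivity), mul_add, pow_two, ← mul_assoc,
      inv_mul_cancel₀ hPpos.ne', one_mul]
    have : 0 ≤ ‖PP z0 z‖⁻¹ * ((1 + ‖z‖ ^ 2) ^ 2 * δ ^ 2) := by positivity
    linarith
  have h4 : ‖PP z0 z‖⁻¹ ≤ ‖z0 - z‖⁻¹ + ‖anti z0 - z‖⁻¹ := by
    rw [hP, inv_div, div_le_iff₀ (by positivity)]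
    have : (‖z0 - z‖⁻¹ + ‖anti z0 - z‖⁻¹) * (2 * ‖z0 - z‖ * (‖z0‖ * ‖anti z0 - z‖)) =
        2 * (‖z0‖ * ‖anti z0 - z‖ + ‖z0‖ * ‖z0 - z‖) := by
      field_simp
    rw [this]
    have : 0 ≤ ‖z0‖ * ‖anti z0 - z‖ + ‖z0‖ * ‖z0 - z‖ := by positivity
    linarith
  rw [← ofReal_norm, ← ofReal_norm, ← ofReal_norm, ← ENNReal.ofReal_inv_of_pos a1,
    ← ENNReal.ofReal_inv_of_pos a2, ← ENNReal.ofReal_add (by positivity) (by positivity)]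
  exact ENNReal.ofReal_le_ofReal (h3.trans h4)

end Pool.Agent.Y251.SP
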