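import Pool.Agent.Y251.SP.A3
import Pool.Agent.Y251.CP.D10
set_option autoImplicit false

/-! # Densities with a one-sided derivative on the sphere: the estimate on spheres -/

namespace Pool.Agent.Y251.SP

open MeasureTheory Set Metric Complex Filter
open Pool.Agent.Helper793.Nir (E3 stv stv_cont wt wt_pos)
open Pool.Agent.Y251.CP
open scoped ENNReal NNReal ComplexConjugate Topology RealInnerProductSpace

theorem wm_int (g : ℂ → ℂ) : ∫ z, g z ∂wm = ∫ z, (wt z : ℂ) * g z := by
  unfold wm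
  rw [integral_withDensity_eq_integral_toReal_smul wt_meas.ennreal_ofReal
    (Eventually.of_forall fun z => ENNReal.ofReal_lt_top)]
  refine integral_congr_ae (Eventually.of_forall fun z => ?_)
  simp only [ENNReal.toReal_ofReal (wt_pos z).le, real_smul]

theorem HH_contDiff (n : WithTop ℕ∞) : ContDiff ℝ n HH := by
  unfold HH
  have h2 : ContDiff ℝ n (fun w : ℂ => conj w) := (conjCLE : ℂ →L[ℝ] ℂ).contDiff
  exact contDiff_const.add (contDiff_id.mul h2)

theorem PP_contDiff (z0 : ℂ) (n : WithTop ℕ∞) : ContDiff ℝ n (PP z0) := by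
  unfold PP
  exact contDiff_const.mul ((contDiff_id.sub contDiff_const).mul
    (contDiff_const.add (contDiff_id.mul contDiff_const)))

theorem tS_contDiff (r : ℝ) {δ : ℝ} (hδ : 0 < δ) (z0 : ℂ) (n : WithTop ℕ∞) :
    ContDiff ℝ n (tS r δ z0) := by
  have hc : ContDiff ℝ n (fun w : ℂ => conj w) := (conjCLE : ℂ →L[ℝ] ℂ).contDiff
  have h1 : ContDiff ℝ n (fun w : ℂ => w - z0) := contDiff_id.sub contDiff_const
  have hP := PP_contDiff z0 n
  have hcP : ContDiff ℝ n (fun w => conj (PP z0 w)) := hc.comp hP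
  have hcc : ContDiff ℝ n (cc z0) := by
    unfold cc
    exact contDiff_const.sub ((contDiff_const.mul (h1.mul (hc.comp h1))).mul
      ((HH_contDiff n).inv fun z => HH_ne z))
  have hD : ContDiff ℝ n (DD δ z0) := by
    unfold DD
    exact (hP.mul hcP).add (contDiff_const.mul ((HH_contDiff n).pow 2))
  unfold tS
  exact (contDiff_const.mul hcc).cexp.mul (hcP.mul (hD.inv fun z => DD_ne hδ z0 z))

theorem mS_cont (r : ℝ) {δ : ℝ} (hδ : 0 < δ) : Continuous fun p : ℂ × ℂ => mS r δ p.1 p.2 := by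
  unfold mS
  have h := cs_cont
  have h2 : Continuous fun p : ℂ × ℂ => (1 - cs p.1 p.2 ^ 2) / ((1 - cs p.1 p.2 ^ 2) + δ ^ 2) :=
    (continuous_const.sub (h.pow 2)).div ((continuous_const.sub (h.pow 2)).add continuous_const)
      fun p => (den_pos hδ p.1 p.2).ne'
  exact (continuous_exp.comp (continuous_const.mul (continuous_ofReal.comp h))).mul
    (continuous_ofReal.comp h2)

theorem kS_cont (r : ℝ) {δ : ℝ} (hδ : 0 < δ) : Continuous fun p : ℂ × ℂ => kS r δ p.1 p.2 := by
  unfold kS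
  have h := cs_cont
  have h2 : Continuous fun p : ℂ × ℂ =>
      δ ^ 2 * cs p.1 p.2 / ((1 - cs p.1 p.2 ^ 2) + δ ^ 2) ^ 2 :=
    (continuous_const.mul h).div (((continuous_const.sub (h.pow 2)).add continuous_const).pow 2)
      fun p => (pow_pos (den_pos hδ p.1 p.2) 2).ne'
  exact (continuous_exp.comp (continuous_const.mul (continuous_ofReal.comp h))).mul
    (continuous_ofReal.comp h2)

theorem cs_cont' (z0 : ℂ) : Continuous fun z => cs z0 z :=
  cs_cont.comp (continuous_const.prodMk continuous_id)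

theorem mS_cont' (r : ℝ) {δ : ℝ} (hδ : 0 < δ) (z0 : ℂ) : Continuous fun z : ℂ => mS r δ z0 z := by
  unfold mS
  have h := cs_cont' z0
  have h2 : Continuous fun z : ℂ => (1 - cs z0 z ^ 2) / ((1 - cs z0 z ^ 2) + δ ^ 2) :=
    (continuous_const.sub (h.pow 2)).div ((continuous_const.sub (h.pow 2)).add continuous_const)
      fun z => (den_pos hδ z0 z).ne'
  exact (continuous_exp.comp (continuous_const.mul (continuous_ofReal.comp h))).mul
    (continuous_ofReal.comp h2)

theorem kS_cont' (r : ℝ) {δ : ℝ} (hδ : 0 < δ) (z0 : ℂ) : Continuous fun z : ℂ => kS r δ z0 z := by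
  unfold kS
  have h := cs_cont' z0
  have h2 : Continuous fun z : ℂ =>
      δ ^ 2 * cs z0 z / ((1 - cs z0 z ^ 2) + δ ^ 2) ^ 2 :=
    (continuous_const.mul h).div (((continuous_const.sub (h.pow 2)).add continuous_const).pow 2)
      fun z => (pow_pos (den_pos hδ z0 z) 2).ne'
  exact (continuous_exp.comp (continuous_const.mul (continuous_ofReal.comp h))).mul
    (continuous_ofReal.comp h2)

theorem cut {R : ℝ} : ∃ χ : ℂ → ℂ, ContDiff ℝ ((⊤ : ℕ∞) : WithTop ℕ∞) χ ∧
    HasCompactSupport χ ∧ (∀ z, ‖χ z‖ ≤ 1) ∧ (∀ z, ‖z‖ ≤ R → χ =ᶠ[𝓝 z] fun _ => 1) := by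
  have hR : 0 < |R| + 1 := by positivity
  let b : ContDiffBump (0 : ℂ) := ⟨|R| + 1, |R| + 2, hR, by linarith⟩
  refine ⟨fun z => (b z : ℂ), ofRealCLM.contDiff.comp b.contDiff, ?_, ?_, ?_⟩
  · exact b.hasCompactSupport.comp_left (g := fun r : ℝ => (r : ℂ)) (by simp)
  · intro z
    rw [norm_real, Real.norm_eq_abs, abs_of_nonneg b.nonneg]
    exact b.le_one
  · intro z hz
    have h1 : ∀ᶠ w : ℂ in 𝓝 z, ‖w‖ < |R| + 1 := by
      refine (isOpen_lt continuous_norm continuous_const).mem_nhds ?_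
      change ‖z‖ < |R| + 1
      linarith [le_abs_self R]
    filter_upwards [h1] with w hw
    have : b w = 1 := by
      apply b.one_of_mem_closedBall
      rw [mem_closedBall_zero_iff]
      exact hw.le
    simp only [this, ofReal_one]

theorem coreS {f a : ℂ → ℂ} {ν : Measure ℂ} {R : ℝ} (ha : Measurable a)
    (hfs : ∀ z, R ≤ ‖z‖ → f z = 0) (hfi : Integrable f) (hw : WD f ν a) {r δ : ℝ}
    (hr : 0 < r) (hδ : 0 < δ) {z0 : ℂ} (hz0 : z0 ≠ 0) :
    ENNReal.ofReal r * ‖∫ z, f z * mS r δ z0 z ∂wm‖ₑ ≤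
      2 * (∫⁻ z, ‖f z‖ₑ * KS δ z0 z ∂wm) + 4 * pot ν a z0 + 4 * pot ν a (anti z0) := by
  obtain ⟨χ, hχ1, hχ2, hχ3, hχ4⟩ := cut (R := R)
  set φ : ℂ → ℂ := fun z => tS r δ z0 z * χ z with hφ
  have h1 := hw φ ((tS_contDiff r hδ z0 _).mul hχ1) hχ2.mul_left
  have hcm : Continuous fun z => mS r δ z0 z := mS_cont' r hδ z0
  have hck : Continuous fun z => kS r δ z0 z := kS_cont' r hδ z0
  have h2 : ∀ z, f z * dbar φ z = -(I * r / 4) * ((wt z : ℂ) * (f z * mS r δ z0 z)) +
      -(1 / 2) * ((wt z : ℂ) * (f z * kS r δ z0 z)) := by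
    intro z
    by_cases hz : R ≤ ‖z‖
    · rw [hfs z hz]
      ring
    · push Not at hz
      have he : φ =ᶠ[𝓝 z] tS r δ z0 := by
        filter_upwards [hχ4 z hz.le] with w hw1
        rw [hφ]
        simp only
        rw [hw1, mul_one]
      rw [((tS_dbar r hδ z0 z).congr_ev he).dbar_eq]
      push_cast
      ring
  have hwc : Continuous fun z : ℂ => (wt z : ℂ) := by
    have : Continuous fun z : ℂ => wt z := by
      unfold Pool.Agent.Helper793.Nir.wt
      exact continuous_const.div (by fun_prop) fun z => by positivity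
    exact continuous_ofReal.comp this
  have hwb : ∀ z : ℂ, ‖(wt z : ℂ)‖ ≤ 4 := by
    intro z
    rw [norm_real, Real.norm_of_nonneg (wt_pos z).le]
    exact wt_le z
  have hi1 : Integrable fun z => (wt z : ℂ) * (f z * mS r δ z0 z) := by
    refine (hfi.mul_bdd (c := 1) hcm.aestronglyMeasurable ?_).bdd_mul (c := 4)
      hwc.aestronglyMeasurable (Eventually.of_forall hwb)
    exact Eventually.of_forall fun z => mS_norm r hδ z0 z
  have hi2 : Integrable fun z => (wt z : ℂ) * (f z * kS r δ z0 z) := by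
    refine (hfi.mul_bdd (c := (δ ^ 2)⁻¹) hck.aestronglyMeasurable ?_).bdd_mul (c := 4)
      hwc.aestronglyMeasurable (Eventually.of_forall hwb)
    exact Eventually.of_forall fun z => kS_norm' r hδ z0 z
  rw [integral_congr_ae (Eventually.of_forall h2), integral_add (hi1.const_mul _)
    (hi2.const_mul _), integral_const_mul, integral_const_mul, ← wm_int, ← wm_int] at h1
  have h5 : I * r * ∫ z, f z * mS r δ z0 z ∂wm = -(2 * ∫ z, f z * kS r δ z0 z ∂wm) +
      4 * ∫ z, φ z * a z ∂ν := by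
    linear_combination (-4) * h1
  have h6 : ENNReal.ofReal r * ‖∫ z, f z * mS r δ z0 z ∂wm‖ₑ =
      ‖I * r * ∫ z, f z * mS r δ z0 z ∂wm‖ₑ := by
    rw [enorm_mul, enorm_mul]
    congr 1
    rw [← ofReal_norm, ← ofReal_norm, norm_I, norm_real, Real.norm_of_nonneg hr.le]
    simp
  rw [h6, h5, add_assoc]
  refine (enorm_add_le _ _).trans (add_le_add ?_ ?_)
  · have e2 : ‖(2 : ℂ)‖ₑ = 2 := by
      rw [← ofReal_norm]
      norm_num
    rw [enorm_neg, enorm_mul, e2]
    refine mul_le_mul_right ((enorm_integral_le_lintegral_enorm _).trans ?_) _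
    refine lintegral_mono fun z => ?_
    rw [enorm_mul]
    exact mul_le_mul_right (kS_norm r hδ z0 z) _
  · have e4 : ‖(4 : ℂ)‖ₑ = 4 := by
      rw [← ofReal_norm]
      norm_num
    rw [enorm_mul, e4, ← mul_add]
    refine mul_le_mul_right ((enorm_integral_le_lintegral_enorm _).trans ?_) _
    unfold pot
    have hpm : Measurable fun w => ‖a w‖ₑ * ‖z0 - w‖ₑ⁻¹ := by
      have h8 : Measurable fun w : ℂ => z0 - w := measurable_const.sub measurable_id
      exact ha.enorm.mul h8.enorm.inv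
    rw [← lintegral_add_left hpm]
    refine lintegral_mono fun z => ?_
    rw [enorm_mul, mul_comm, ← mul_add]
    refine mul_le_mul_right ?_ _
    rw [hφ]
    simp only
    rw [enorm_mul]
    have h7 : ‖χ z‖ₑ ≤ 1 := by
      rw [← ofReal_norm]
      exact ENNReal.ofReal_le_one.2 (hχ3 z)
    calc ‖tS r δ z0 z‖ₑ * ‖χ z‖ₑ ≤ (‖z0 - z‖ₑ⁻¹ + ‖anti z0 - z‖ₑ⁻¹) * 1 :=
          mul_le_mul' (tS_norm r hδ hz0 z) h7
      _ = _ := mul_one _

/-- the Fourier transform of a density on the sphere, in stereographic coordinates -/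
noncomputable def ES (f : ℂ → ℂ) (x : E3) : ℂ :=
  ∫ z, f z * cexp (-(I * (⟪x, stv z⟫ : ℝ))) ∂wm

theorem ES_pt (f : ℂ → ℂ) (r : ℝ) (z0 : ℂ) :
    ES f (r • stv z0) = ∫ z, f z * cexp (-(I * r) * (cs z0 z : ℝ)) ∂wm := by
  unfold ES
  refine integral_congr_ae (Eventually.of_forall fun z => ?_)
  simp only
  rw [real_inner_smul_left, inner_stv]
  congr 2
  push_cast
  ring

theorem pot_meas (ν : Measure ℂ) [SFinite ν] (a : ℂ → ℂ) (ha : Measurable a) :
    Measurable (pot ν a) := by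
  unfold pot
  have h : Measurable fun p : ℂ × ℂ => ‖a p.2‖ₑ * ‖p.1 - p.2‖ₑ⁻¹ :=
    (ha.comp measurable_snd).enorm.mul (measurable_fst.sub measurable_snd).enorm.inv
  exact h.lintegral_prod_right'

/-- the estimate on the sphere of radius `r` -/
theorem fixed_r {q : ℝ} (hq : 1 < q) : ∃ C : ℝ≥0, ∀ (f a : ℂ → ℂ) (ν : Measure ℂ) (R : ℝ),
    SFinite ν → Measurable f → Measurable a → (∀ z, R ≤ ‖z‖ → f z = 0) → Integrable f →
    WD f ν a → ∀ r : ℝ, 0 < r →
    ∫⁻ z0, (ENNReal.ofReal r * ‖ES f (r • stv z0)‖ₑ) ^ q ∂wm ≤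
      C * ((∫⁻ z, ‖f z‖ₑ ^ q ∂wm) + ∫⁻ z, pot ν a z ^ q ∂wm) := by
  obtain ⟨K, hK⟩ := conv_KS hq
  have hq0 : 0 ≤ q := by linarith
  have hcst : ENNReal.ofReal (3 ^ q) * (2 ^ q * K + 2 * 4 ^ q) ≠ ∞ := by
    refine ENNReal.mul_ne_top ENNReal.ofReal_ne_top (ENNReal.add_ne_top.2
      ⟨ENNReal.mul_ne_top ?_ ENNReal.coe_ne_top, ENNReal.mul_ne_top (by norm_num) ?_⟩)
    · exact (ENNReal.rpow_lt_top_of_nonneg hq0 (by norm_num)).ne
    · exact (ENNReal.rpow_lt_top_of_nonneg hq0 (by norm_num)).ne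
  refine ⟨(ENNReal.ofReal (3 ^ q) * (2 ^ q * K + 2 * 4 ^ q)).toNNReal, ?_⟩
  intro f a ν R hν hf ha hfs hfi hw r hr
  rw [ENNReal.coe_toNNReal hcst]
  have hwf := wm_fin
  set e : ℕ → ℝ := fun n => 1 / ((n : ℝ) + 1) with he
  have he0 : ∀ n, 0 < e n := fun n => by positivity
  have hel : Tendsto e atTop (𝓝 0) := tendsto_one_div_add_atTop_nhds_zero_nat
  have hpm := pot_meas ν a ha
  have hpa : Measurable fun z => pot ν a (anti z) := hpm.comp anti_meas
  have hmeas : ∀ n, Measurable fun z0 => ∫ z, f z * mS r (e n) z0 z ∂wm := by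
    intro n
    have h : StronglyMeasurable (Function.uncurry fun (z0 z : ℂ) => f z * mS r (e n) z0 z) := by
      have h1 : Measurable (Function.uncurry fun (z0 z : ℂ) => f z * mS r (e n) z0 z) :=
        (hf.comp measurable_snd).mul (mS_cont r (he0 n)).measurable
      exact h1.stronglyMeasurable
    exact h.integral_prod_right.measurable
  refine fatou_le wm (fun n z0 => (ENNReal.ofReal r * ‖∫ z, f z * mS r (e n) z0 z ∂wm‖ₑ) ^ q) _
    (fun n => ((hmeas n).enorm.const_mul _).pow_const q) _ (fun n => ?_) ?_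
  · -- the bound
    have hkm : Measurable fun z0 : ℂ => ∫⁻ z, ‖f z‖ₑ * KS (e n) z0 z ∂wm := by
      have h1 : Measurable fun p : ℂ × ℂ => ‖f p.2‖ₑ * KS (e n) p.1 p.2 :=
        (hf.comp measurable_snd).enorm.mul (KS_meas (e n))
      exact h1.lintegral_prod_right'
    calc ∫⁻ z0, (ENNReal.ofReal r * ‖∫ z, f z * mS r (e n) z0 z ∂wm‖ₑ) ^ q ∂wm
        ≤ ∫⁻ z0, ENNReal.ofReal (3 ^ q) * (2 ^ q * (∫⁻ z, ‖f z‖ₑ * KS (e n) z0 z ∂wm) ^ q +
            4 ^ q * pot ν a z0 ^ q + 4 ^ q * pot ν a (anti z0) ^ q) ∂wm := by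
          refine lintegral_mono_ae ?_
          filter_upwards [wm_ne_zero] with z0 hz0
          refine (ENNReal.rpow_le_rpow (coreS ha hfs hfi hw hr (he0 n) hz0) hq0).trans ?_
          refine (three_rpow _ _ _ hq0).trans (le_of_eq ?_)
          rw [ENNReal.mul_rpow_of_nonneg _ _ hq0, ENNReal.mul_rpow_of_nonneg _ _ hq0,
            ENNReal.mul_rpow_of_nonneg _ _ hq0]
      _ = ENNReal.ofReal (3 ^ q) * (2 ^ q * (∫⁻ z0, (∫⁻ z, ‖f z‖ₑ * KS (e n) z0 z ∂wm) ^ q ∂wm) +
            4 ^ q * (∫⁻ z0, pot ν a z0 ^ q ∂wm) + 4 ^ q * ∫⁻ z0, pot ν a z0 ^ q ∂wm) := by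
          rw [lintegral_const_mul' _ _ ENNReal.ofReal_ne_top,
            lintegral_add_right _ ((hpa.pow_const q).const_mul _),
            lintegral_add_right _ ((hpm.pow_const q).const_mul _),
            lintegral_const_mul _ (hkm.pow_const q), lintegral_const_mul _ (hpm.pow_const q),
            lintegral_const_mul _ (hpa.pow_const q),
            anti_lint _ (hpm.pow_const q)]
      _ ≤ ENNReal.ofReal (3 ^ q) * (2 ^ q * (K * (∫⁻ z, ‖f z‖ₑ ^ q ∂wm)) +
            4 ^ q * (∫⁻ z0, pot ν a z0 ^ q ∂wm) + 4 ^ q * ∫⁻ z0, pot ν a z0 ^ q ∂wm) :=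
          mul_le_mul_right (add_le_add (add_le_add (mul_le_mul_right
            (hK _ (he0 n) (fun z => ‖f z‖ₑ) hf.enorm) _) le_rfl) le_rfl) _
      _ = ENNReal.ofReal (3 ^ q) * ((2 ^ q * K) * (∫⁻ z, ‖f z‖ₑ ^ q ∂wm) +
            (2 * 4 ^ q) * (∫⁻ z0, pot ν a z0 ^ q ∂wm)) := by ring
      _ ≤ ENNReal.ofReal (3 ^ q) * ((2 ^ q * K + 2 * 4 ^ q) * (∫⁻ z, ‖f z‖ₑ ^ q ∂wm) +
            (2 ^ q * K + 2 * 4 ^ q) * (∫⁻ z0, pot ν a z0 ^ q ∂wm)) :=
          mul_le_mul_right (add_le_add (mul_le_mul_left le_self_add _)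
            (mul_le_mul_left le_add_self _)) _
      _ = _ := by ring
  · -- convergence
    filter_upwards [wm_ne_zero] with z0 hz0
    have h1 : Tendsto (fun n => ∫ z, f z * mS r (e n) z0 z ∂wm) atTop
        (𝓝 (ES f (r • stv z0))) := by
      rw [ES_pt]
      have hfw : Integrable f wm := by
        refine ⟨hf.aestronglyMeasurable, ?_⟩
        refine lt_of_le_of_lt (wm_le _ hf.enorm) (ENNReal.mul_lt_top (by norm_num) hfi.2)
      refine tendsto_integral_of_dominated_convergence (fun z => ‖f z‖) (fun n => ?_) hfw.norm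
        (fun n => Eventually.of_forall fun z => ?_) ?_
      · have hc1 : Continuous fun z => mS r (e n) z0 z := mS_cont' r (he0 n) z0
        exact hf.aestronglyMeasurable.mul hc1.aestronglyMeasurable
      · rw [norm_mul]
        calc ‖f z‖ * ‖mS r (e n) z0 z‖ ≤ ‖f z‖ * 1 := by
              gcongr
              exact mS_norm r (he0 n) z0 z
          _ = _ := mul_one _
      · have hnull : ∀ᵐ z ∂wm, z ≠ z0 ∧ z ≠ anti z0 := by
          have h : ∀ᵐ z : ℂ, z ≠ z0 ∧ z ≠ anti z0 := by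
            rw [eventually_and]
            constructor
            · rw [ae_iff]
              simp
            · rw [ae_iff]
              simp
          exact wm_ac.ae_le h
        filter_upwards [hnull] with z hz
        have hne : 1 - cs z0 z ^ 2 ≠ 0 := by
          intro h0
          have h2 := PP_sq z0 z
          rw [h0, mul_zero] at h2
          have h3 : PP z0 z = 0 := by
            rw [← norm_eq_zero]
            exact pow_eq_zero_iff (two_ne_zero) |>.1 h2
          unfold PP at h3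
          rcases mul_eq_zero.1 h3 with h4 | h4
          · rw [neg_eq_zero, div_eq_zero_iff] at h4
            rcases h4 with h4 | h4
            · norm_num at h4
            · exact HH_ne z0 h4
          · rcases mul_eq_zero.1 h4 with h5 | h5
            · exact hz.1 (sub_eq_zero.1 h5)
            · apply hz.2
              have hc0 : conj z0 ≠ 0 := (map_ne_zero _).2 hz0
              unfold anti
              field_simp
              linear_combination h5
        have h2 : Tendsto (fun n => (1 - cs z0 z ^ 2) / ((1 - cs z0 z ^ 2) + e n ^ 2)) atTop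
            (𝓝 1) := by
          have h3 : Tendsto (fun n => (1 - cs z0 z ^ 2) + e n ^ 2) atTop
              (𝓝 (1 - cs z0 z ^ 2)) := by
            have := (tendsto_const_nhds (x := 1 - cs z0 z ^ 2)).add (hel.pow 2)
            simpa using this
          have h4 := (tendsto_const_nhds (x := 1 - cs z0 z ^ 2)).div h3 hne
          rwa [div_self hne] at h4
        have h5 : Tendsto (fun n => mS r (e n) z0 z) atTop
            (𝓝 (cexp (-(I * r) * (cs z0 z : ℝ)) * ((1 : ℝ) : ℂ))) := by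
          unfold mS
          exact ((continuous_ofReal.tendsto 1).comp h2).const_mul _
        rw [ofReal_one, mul_one] at h5
        exact h5.const_mul _
    have h2 : Tendsto (fun n => ENNReal.ofReal r * ‖∫ z, f z * mS r (e n) z0 z ∂wm‖ₑ) atTop
        (𝓝 (ENNReal.ofReal r * ‖ES f (r • stv z0)‖ₑ)) :=
      ENNReal.Tendsto.const_mul ((continuous_enorm.tendsto _).comp h1)
        (Or.inr ENNReal.ofReal_ne_top)
    exact (ENNReal.continuous_rpow_const.tendsto _).comp h2

end Pool.Agent.Y251.SP
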