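import Pool.Agent.Y251.SP.A4
set_option autoImplicit false

/-! # Densities with a one-sided derivative on the sphere: the full estimate -/

namespace Pool.Agent.Y251.SP

open MeasureTheory Set Metric Complex Filter
open Pool.Agent.Helper793.Nir (E3 stv stv_cont wt wt_pos)
open Pool.Agent.Y251.CP
open scoped ENNReal NNReal ComplexConjugate Topology RealInnerProductSpace

theorem ES_meas (f : ℂ → ℂ) (hf : Measurable f) : Measurable (ES f) := by
  have hwf := wm_fin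
  have h : StronglyMeasurable (Function.uncurry fun (x : E3) (z : ℂ) =>
      f z * cexp (-(I * (⟪x, stv z⟫ : ℝ)))) := by
    have h1 : Measurable (Function.uncurry fun (x : E3) (z : ℂ) =>
        f z * cexp (-(I * (⟪x, stv z⟫ : ℝ)))) := by
      have h3 : Continuous fun p : E3 × ℂ => ⟪p.1, stv p.2⟫ :=
        continuous_fst.inner (stv_cont.comp continuous_snd)
      have h2 : Continuous fun p : E3 × ℂ => cexp (-(I * (⟪p.1, stv p.2⟫ : ℝ))) :=
        continuous_exp.comp (continuous_const.mul (continuous_ofReal.comp h3)).neg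
      exact (hf.comp measurable_snd).mul h2.measurable
    exact h1.stronglyMeasurable
  exact h.integral_prod_right.measurable

theorem ES_sup (f : ℂ → ℂ) (x : E3) : ‖ES f x‖ₑ ≤ ∫⁻ z, ‖f z‖ₑ ∂wm := by
  unfold ES
  refine (enorm_integral_le_lintegral_enorm _).trans (le_of_eq ?_)
  refine lintegral_congr fun z => ?_
  have h : ‖cexp (-(I * (⟪x, stv z⟫ : ℝ)))‖ₑ = 1 := by
    rw [← ofReal_norm]
    have : -(I * ((⟪x, stv z⟫ : ℝ) : ℂ)) = ((-⟪x, stv z⟫ : ℝ) : ℂ) * I := by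
      push_cast
      ring
    rw [this, norm_exp_ofReal_mul_I, ENNReal.ofReal_one]
  rw [enorm_mul, h, mul_one]

theorem hold_wm {q : ℝ} (hq : 1 < q) (u : ℂ → ℝ≥0∞) (hu : Measurable u) :
    (∫⁻ z, u z ∂wm) ^ q ≤ (∫⁻ z, u z ^ q ∂wm) * ENNReal.ofReal (4 * Real.pi) ^ (q - 1) := by
  have h := jensen wm hq (u := u) (k := fun _ => 1) hu.aemeasurable aemeasurable_const
  simpa only [mul_one, lintegral_const, one_mul, wm_univ] using h

theorem int_of_supp {f : ℂ → ℂ} (hf : Measurable f) {R : ℝ} (hfs : ∀ z, R ≤ ‖z‖ → f z = 0)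
    (h : ∫⁻ z, ‖f z‖ₑ ∂wm ≠ ∞) : Integrable f := by
  refine ⟨hf.aestronglyMeasurable, ?_⟩
  rw [wm_lint _ hf.enorm] at h
  have h1 : ∀ z, ‖f z‖ₑ ≤ ENNReal.ofReal ((1 + R ^ 2) ^ 2 / 4) *
      (ENNReal.ofReal (wt z) * ‖f z‖ₑ) := by
    intro z
    by_cases hz : R ≤ ‖z‖
    · rw [hfs z hz, enorm_zero]
      exact zero_le
    · push Not at hz
      rw [← mul_assoc, ← ENNReal.ofReal_mul (by positivity)]
      have h2 : 1 ≤ (1 + R ^ 2) ^ 2 / 4 * wt z := by
        unfold Pool.Agent.Helper793.Nir.wt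
        have h3 : ‖z‖ ^ 2 ≤ R ^ 2 := by
          have := norm_nonneg z
          nlinarith
        have h4 : (1 + ‖z‖ ^ 2) ^ 2 ≤ (1 + R ^ 2) ^ 2 := by gcongr
        rw [div_mul_div_comm, le_div_iff₀ (by positivity)]
        linarith
      calc ‖f z‖ₑ = 1 * ‖f z‖ₑ := (one_mul _).symm
        _ ≤ _ := mul_le_mul_left (ENNReal.one_le_ofReal.2 h2) _
  refine lt_of_le_of_lt (lintegral_mono h1) ?_
  rw [lintegral_const_mul' _ _ ENNReal.ofReal_ne_top]
  exact ENNReal.mul_lt_top ENNReal.ofReal_lt_top (lt_top_iff_ne_top.2 h)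

/-- integration over the radius -/
theorem radial {q : ℝ} (hq : 3 < q) : ∃ C : ℝ≥0, 0 < C ∧ ∀ (f : ℂ → ℂ) (N : ℝ≥0∞),
    Measurable f → ∫⁻ z, ‖f z‖ₑ ^ q ∂wm ≤ N →
    (∀ r : ℝ, 0 < r → ∫⁻ z0, (ENNReal.ofReal r * ‖ES f (r • stv z0)‖ₑ) ^ q ∂wm ≤ N) →
    ∫⁻ x, ‖ES f x‖ₑ ^ q ≤ C * N := by
  obtain ⟨C2, hC2⟩ := t_int hq
  have hq0 : 0 < q := by linarith
  set K : ℝ≥0∞ := ENNReal.ofReal (4 * Real.pi) ^ (q - 1) * ENNReal.ofReal (4 * Real.pi) with hK
  have hKt : K ≠ ∞ := ENNReal.mul_ne_top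
    (ENNReal.rpow_lt_top_of_nonneg (by linarith) ENNReal.ofReal_ne_top).ne ENNReal.ofReal_ne_top
  refine ⟨C2 + 2 * K.toNNReal + 1, by positivity, fun f N hf hfN hr => ?_⟩
  have hwf := wm_fin
  have hm : Measurable fun x : E3 => ‖ES f x‖ₑ ^ q := (ES_meas f hf).enorm.pow_const q
  have hset : MeasurableSet {t : ℝ | 1 ≤ |t|} := measurableSet_le measurable_const measurable_norm
  have hjm : Measurable fun p : ℂ × ℝ => ENNReal.ofReal (p.2 ^ 2) * ‖ES f (p.2 • stv p.1)‖ₑ ^ q := by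
    have h1 : Measurable fun p : ℂ × ℝ => p.2 • stv p.1 :=
      measurable_snd.smul (stv_cont.measurable.comp measurable_fst)
    exact (measurable_snd.pow_const _).ennreal_ofReal.mul (hm.comp h1)
  have hb : ∀ r : ℝ, 0 < r → ∫⁻ z0, ENNReal.ofReal (r ^ 2) * ‖ES f (r • stv z0)‖ₑ ^ q ∂wm ≤
      ({t : ℝ | 1 ≤ |t|}.indicator (fun t => ENNReal.ofReal (|t| ^ (2 - q))) r +
        (Ioo (-1 : ℝ) 1).indicator (fun _ => K) r) * N := by
    intro r hr0
    by_cases h1 : 1 ≤ r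
    · have h1' : r ∈ {t : ℝ | 1 ≤ |t|} := by
        change 1 ≤ |r|
        rwa [abs_of_pos hr0]
      have h2 : r ∉ Ioo (-1 : ℝ) 1 := fun h => absurd h.2 (not_lt.2 h1)
      rw [indicator_of_mem h1', indicator_of_notMem h2, add_zero, abs_of_pos hr0]
      have h3 : ∀ z0, ENNReal.ofReal (r ^ 2) * ‖ES f (r • stv z0)‖ₑ ^ q =
          ENNReal.ofReal (r ^ (2 - q)) * (ENNReal.ofReal r * ‖ES f (r • stv z0)‖ₑ) ^ q := by
        intro z0
        rw [ENNReal.mul_rpow_of_nonneg _ _ hq0.le, ← mul_assoc, ENNReal.ofReal_rpow_of_pos hr0,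
          ← ENNReal.ofReal_mul (by positivity), ← Real.rpow_add hr0, ← Real.rpow_natCast]
        congr 3
        push_cast
        ring
      rw [lintegral_congr h3, lintegral_const_mul' _ _ ENNReal.ofReal_ne_top]
      exact mul_le_mul_right (hr r hr0) _
    · push Not at h1
      have h1' : r ∉ {t : ℝ | 1 ≤ |t|} := by
        change ¬ 1 ≤ |r|
        rw [abs_of_pos hr0, not_le]
        exact h1
      have h2 : r ∈ Ioo (-1 : ℝ) 1 := ⟨by linarith, h1⟩
      rw [indicator_of_notMem h1', indicator_of_mem h2, zero_add]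
      calc ∫⁻ z0, ENNReal.ofReal (r ^ 2) * ‖ES f (r • stv z0)‖ₑ ^ q ∂wm
          ≤ ∫⁻ _z0, 1 * ((∫⁻ z, ‖f z‖ₑ ^ q ∂wm) * ENNReal.ofReal (4 * Real.pi) ^ (q - 1)) ∂wm := by
            refine lintegral_mono fun z0 => mul_le_mul' ?_ ?_
            · exact ENNReal.ofReal_le_one.2 (by nlinarith)
            · exact (ENNReal.rpow_le_rpow (ES_sup f _) hq0.le).trans
                (hold_wm (by linarith) _ hf.enorm)
        _ = K * ∫⁻ z, ‖f z‖ₑ ^ q ∂wm := by
            rw [lintegral_const, wm_univ, one_mul, hK]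
            ring
        _ ≤ K * N := mul_le_mul_right hfN _
  calc ∫⁻ x, ‖ES f x‖ₑ ^ q
      = ∫⁻ z0, (∫⁻ r in Ioi (0 : ℝ), ENNReal.ofReal (r ^ 2) * ‖ES f (r • stv z0)‖ₑ ^ q) ∂wm :=
        polar3 _ hm
    _ = ∫⁻ r in Ioi (0 : ℝ), ∫⁻ z0, ENNReal.ofReal (r ^ 2) * ‖ES f (r • stv z0)‖ₑ ^ q ∂wm :=
        lintegral_lintegral_swap hjm.aemeasurable
    _ ≤ ∫⁻ r in Ioi (0 : ℝ),
        ({t : ℝ | 1 ≤ |t|}.indicator (fun t => ENNReal.ofReal (|t| ^ (2 - q))) r +
        (Ioo (-1 : ℝ) 1).indicator (fun _ => K) r) * N :=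
        setLIntegral_mono' measurableSet_Ioi fun r hr0 => hb r hr0
    _ ≤ ∫⁻ r : ℝ,
        ({t : ℝ | 1 ≤ |t|}.indicator (fun t => ENNReal.ofReal (|t| ^ (2 - q))) r +
        (Ioo (-1 : ℝ) 1).indicator (fun _ => K) r) * N := setLIntegral_le_lintegral _ _
    _ = ((∫⁻ t : ℝ, {t : ℝ | 1 ≤ |t|}.indicator
        (fun t => ENNReal.ofReal (|t| ^ (2 - q))) t) + K * 2) * N := by
        have hm1 : Measurable fun t : ℝ =>
            {t : ℝ | 1 ≤ |t|}.indicator (fun t => ENNReal.ofReal (|t| ^ (2 - q))) t :=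
          Measurable.indicator ((measurable_norm).pow_const _).ennreal_ofReal hset
        have hm2 : Measurable fun t : ℝ =>
            {t : ℝ | 1 ≤ |t|}.indicator (fun t => ENNReal.ofReal (|t| ^ (2 - q))) t +
            (Ioo (-1 : ℝ) 1).indicator (fun _ => K) t :=
          hm1.add (measurable_const.indicator measurableSet_Ioo)
        rw [lintegral_mul_const _ hm2, lintegral_add_left hm1,
          lintegral_indicator (s := Ioo (-1 : ℝ) 1) measurableSet_Ioo, lintegral_const,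
          Measure.restrict_apply MeasurableSet.univ, univ_inter, Real.volume_Ioo]
        norm_num
    _ ≤ (C2 + K * 2) * N := mul_le_mul_left (add_le_add_left hC2 _) _
    _ ≤ _ := by
        refine mul_le_mul_left ?_ _
        push_cast
        rw [ENNReal.coe_toNNReal hKt, mul_comm K 2]
        exact le_self_add

/-- **the estimate for one-sided derivatives on the sphere** -/
theorem mainS {q : ℝ} (hq : 3 < q) : ∃ C : ℝ≥0, 0 < C ∧ ∀ (f a : ℂ → ℂ) (ν : Measure ℂ) (R : ℝ),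
    SFinite ν → Measurable f → Measurable a → (∀ z, R ≤ ‖z‖ → f z = 0) → WD f ν a →
    ∫⁻ x, ‖ES f x‖ₑ ^ q ≤ C * ((∫⁻ z, ‖f z‖ₑ ^ q ∂wm) + ∫⁻ z, pot ν a z ^ q ∂wm) := by
  obtain ⟨C1, hC1⟩ := fixed_r (q := q) (by linarith)
  obtain ⟨C2, hC2p, hC2⟩ := radial hq
  refine ⟨C2 * (C1 + 1), by positivity, ?_⟩
  intro f a ν R hν hf ha hfs hw
  have hq0 : 0 < q := by linarith
  by_cases hN : ∫⁻ z, ‖f z‖ₑ ^ q ∂wm = ∞
  · rw [hN, top_add, ENNReal.mul_top]
    · exact le_top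
    · have : (0 : ℝ≥0) < C2 * (C1 + 1) := by positivity
      exact_mod_cast this.ne'
  have h1 : ∫⁻ z, ‖f z‖ₑ ∂wm ≠ ∞ := by
    intro h
    have h2 := hold_wm (q := q) (by linarith) _ hf.enorm
    rw [h, ENNReal.top_rpow_of_pos hq0, top_le_iff] at h2
    exact ENNReal.mul_ne_top hN
      (ENNReal.rpow_lt_top_of_nonneg (by linarith) ENNReal.ofReal_ne_top).ne h2
  have hfi := int_of_supp hf hfs h1
  set N := (∫⁻ z, ‖f z‖ₑ ^ q ∂wm) + ∫⁻ z, pot ν a z ^ q ∂wm with hNdef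
  have h3 := hC2 f ((C1 + 1) * N) hf ?_ fun r hr => ?_
  · refine h3.trans (le_of_eq ?_)
    push_cast
    ring
  · calc ∫⁻ z, ‖f z‖ₑ ^ q ∂wm ≤ N := le_self_add
      _ = 1 * N := (one_mul _).symm
      _ ≤ (C1 + 1) * N := mul_le_mul_left le_add_self _
  · exact (hC1 f a ν R hν hf ha hfs hfi hw r hr).trans (mul_le_mul_left le_self_add _)

end Pool.Agent.Y251.SP
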