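import Pool.Agent.Y251.SP.A5
set_option autoImplicit false

/-! # Potentials of circles and holomorphic functions on spherical caps -/

namespace Pool.Agent.Y251.SP

open MeasureTheory Set Metric Complex Filter
open Pool.Agent.Helper793.Nir (E3 stv stv_cont wt wt_pos)
open Pool.Agent.Y251.CP
open scoped ENNReal NNReal ComplexConjugate Topology RealInnerProductSpace

/-- the potential of a circle -/
noncomputable def TT (u : ℝ → ℝ≥0∞) (ρ : ℝ) (z : ℂ) : ℝ≥0∞ :=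
  ∫⁻ θ in Ioc (-Real.pi) Real.pi, u θ * (ENNReal.ofReal ρ * ‖z - (0 + ρ * cexp (θ * I))‖ₑ⁻¹)

theorem TT_meas (u : ℝ → ℝ≥0∞) (hu : Measurable u) (ρ : ℝ) : Measurable (TT u ρ) := by
  unfold TT
  have h : Measurable fun p : ℂ × ℝ => u p.2 * (ENNReal.ofReal ρ *
      ‖p.1 - (0 + ρ * cexp (p.2 * I))‖ₑ⁻¹) := by
    have h2 : Continuous fun p : ℂ × ℝ => p.1 - (0 + ρ * cexp (p.2 * I)) := by fun_prop
    exact (hu.comp measurable_snd).mul (h2.measurable.enorm.inv.const_mul _)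
  exact h.lintegral_prod_right'

theorem TT_scale (u : ℝ → ℝ≥0∞) {ρ : ℝ} (hρ : 0 < ρ) (z : ℂ) :
    TT u ρ z = TT u (1 / 2) ((2 * ρ)⁻¹ • z) := by
  unfold TT
  refine lintegral_congr fun θ => ?_
  congr 1
  have h1 : ((2 * ρ)⁻¹ : ℝ) • z - (0 + ((1 / 2 : ℝ) : ℂ) * cexp (θ * I)) =
      ((2 * ρ)⁻¹ : ℝ) • (z - (0 + ρ * cexp (θ * I))) := by
    have hρ' : (ρ : ℂ) ≠ 0 := by exact_mod_cast hρ.ne'
    rw [real_smul, real_smul]
    push_cast
    field_simp
    ring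
  have h2 : ‖((2 * ρ)⁻¹ : ℝ) • (z - (0 + ρ * cexp (θ * I)))‖ₑ =
      ENNReal.ofReal ((2 * ρ)⁻¹) * ‖z - (0 + ρ * cexp (θ * I))‖ₑ := by
    rw [← ofReal_norm, norm_smul, Real.norm_of_nonneg (by positivity),
      ENNReal.ofReal_mul (by positivity), ofReal_norm]
  rw [h1, h2, ENNReal.mul_inv (Or.inl (by simpa using hρ)) (Or.inl ENNReal.ofReal_ne_top),
    ← mul_assoc, ← ENNReal.ofReal_inv_of_pos (by positivity), inv_inv,
    ← ENNReal.ofReal_mul (by norm_num)]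
  congr 2
  ring

theorem wt_scale {ρ : ℝ} (hρ : 0 < ρ) {x : ℂ} (hx : 1 / 4 ≤ ‖x‖) :
    4 * ρ ^ 2 * wt ((2 * ρ) • x) ≤ 16 := by
  unfold Pool.Agent.Helper793.Nir.wt
  rw [norm_smul, Real.norm_of_nonneg (by positivity), mul_div_assoc', div_le_iff₀ (by positivity)]
  have h1 : 1 / 16 ≤ ‖x‖ ^ 2 := by nlinarith
  have h2 : 0 < ρ ^ 2 := by positivity
  have h3 : (2 * ρ * ‖x‖) ^ 2 = 4 * ρ ^ 2 * ‖x‖ ^ 2 := by ring
  rw [h3]
  have h4 : 4 * (4 * ρ ^ 2 * ‖x‖ ^ 2) ≤ (1 + 4 * ρ ^ 2 * ‖x‖ ^ 2) ^ 2 := by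
    nlinarith [sq_nonneg (1 - 4 * ρ ^ 2 * ‖x‖ ^ 2)]
  nlinarith

/-- the potentials of circles of all radii -/
theorem disc_potS {q : ℝ} (hq : 2 < q) : ∃ C : ℝ≥0, ∀ ρ : ℝ, 0 < ρ → ∀ u : ℝ → ℝ≥0∞,
    Measurable u → ∫⁻ z, TT u ρ z ^ q ∂wm ≤ C * ∫⁻ θ in Ioc (-Real.pi) Real.pi, u θ ^ q := by
  obtain ⟨C1, hC1⟩ := disc_pot hq
  have hq0 : 0 < q := by linarith
  set K : ℝ≥0∞ := 2 ^ q * ENNReal.ofReal (2 * Real.pi) ^ (q - 1) * ENNReal.ofReal (4 * Real.pi)
    with hK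
  have hKt : K ≠ ∞ := ENNReal.mul_ne_top (ENNReal.mul_ne_top
    (ENNReal.rpow_lt_top_of_nonneg hq0.le (by norm_num)).ne
    (ENNReal.rpow_lt_top_of_nonneg (by linarith) ENNReal.ofReal_ne_top).ne) ENNReal.ofReal_ne_top
  refine ⟨16 * C1 + K.toNNReal, fun ρ hρ u hu => ?_⟩
  set N := ∫⁻ θ in Ioc (-Real.pi) Real.pi, u θ ^ q with hN
  have hTm := TT_meas u hu (1 / 2)
  set G : ℂ → ℝ≥0∞ := fun x => ENNReal.ofReal (wt ((2 * ρ) • x)) * TT u (1 / 2) x ^ q with hG
  have hwm : Measurable fun x : ℂ => ENNReal.ofReal (wt ((2 * ρ) • x)) :=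
    (wt_meas.comp (measurable_const_smul (2 * ρ))).ennreal_ofReal
  have hGm : Measurable G := hwm.mul (hTm.pow_const q)
  have h1 : ∫⁻ z, TT u ρ z ^ q ∂wm = ENNReal.ofReal (4 * ρ ^ 2) * ∫⁻ x, G x := by
    rw [wm_lint _ ((TT_meas u hu ρ).pow_const q)]
    have h2 : ∀ z, ENNReal.ofReal (wt z) * TT u ρ z ^ q = G (((2 * ρ)⁻¹ : ℝ) • z) := by
      intro z
      rw [hG]
      simp only
      rw [TT_scale u hρ z, smul_smul, mul_inv_cancel₀ (by positivity), one_smul]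
    rw [lintegral_congr h2, lint_smul G hGm (by positivity)]
    congr 2
    field_simp
    ring
  have hS : MeasurableSet {x : ℂ | 1 / 4 ≤ ‖x‖} := measurableSet_le measurable_const measurable_norm
  have hfar : ENNReal.ofReal (4 * ρ ^ 2) * ∫⁻ x in {x : ℂ | 1 / 4 ≤ ‖x‖}, G x ≤ 16 * (C1 * N) := by
    rw [← lintegral_const_mul _ hGm]
    calc ∫⁻ x in {x : ℂ | 1 / 4 ≤ ‖x‖}, ENNReal.ofReal (4 * ρ ^ 2) * G x
        ≤ ∫⁻ x in {x : ℂ | 1 / 4 ≤ ‖x‖}, 16 * TT u (1 / 2) x ^ q := by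
          refine setLIntegral_mono' hS fun x hx => ?_
          rw [hG]
          simp only
          rw [← mul_assoc, ← ENNReal.ofReal_mul (by positivity)]
          refine mul_le_mul_left ?_ _
          rw [← ENNReal.ofReal_ofNat]
          exact ENNReal.ofReal_le_ofReal (wt_scale hρ hx)
      _ ≤ ∫⁻ x, 16 * TT u (1 / 2) x ^ q := setLIntegral_le_lintegral _ _
      _ = 16 * ∫⁻ x, TT u (1 / 2) x ^ q := lintegral_const_mul _ (hTm.pow_const q)
      _ ≤ _ := mul_le_mul_right (hC1 (1 / 2) (by norm_num) le_rfl 0 u hu) _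
  have hnear : ENNReal.ofReal (4 * ρ ^ 2) * ∫⁻ x in {x : ℂ | 1 / 4 ≤ ‖x‖}ᶜ, G x ≤ K * N := by
    have hT : ∀ x ∈ {x : ℂ | 1 / 4 ≤ ‖x‖}ᶜ, TT u (1 / 2) x ^ q ≤
        2 ^ q * ENNReal.ofReal (2 * Real.pi) ^ (q - 1) * N := by
      intro x hx
      have hx' : ‖x‖ < 1 / 4 := not_le.1 hx
      have h3 : TT u (1 / 2) x ≤ 2 * ∫⁻ θ in Ioc (-Real.pi) Real.pi, u θ := by
        unfold TT
        rw [← lintegral_const_mul _ hu]
        refine lintegral_mono fun θ => ?_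
        rw [mul_comm]
        refine mul_le_mul_left ?_ _
        have h4 : 1 / 4 ≤ ‖x - (0 + ((1 / 2 : ℝ) : ℂ) * cexp (θ * I))‖ := by
          have h5 := norm_sub_norm_le (0 + ((1 / 2 : ℝ) : ℂ) * cexp (θ * I)) x
          rw [norm_sub_rev, zero_add, norm_mul, norm_exp_ofReal_mul_I, mul_one, norm_real,
            Real.norm_of_nonneg (by norm_num)] at h5
          rw [zero_add]
          linarith
        have h6 : 0 < ‖x - (0 + ((1 / 2 : ℝ) : ℂ) * cexp (θ * I))‖ := by linarith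
        rw [← ofReal_norm, ← ENNReal.ofReal_inv_of_pos h6, ← ENNReal.ofReal_mul (by norm_num),
          ← ENNReal.ofReal_ofNat]
        apply ENNReal.ofReal_le_ofReal
        have h7 : ‖x - (0 + ((1 / 2 : ℝ) : ℂ) * cexp (θ * I))‖⁻¹ ≤ (1 / 4)⁻¹ :=
          inv_anti₀ (by norm_num) h4
        linarith
      have h8 := jensen (volume.restrict (Ioc (-Real.pi) Real.pi)) (by linarith : 1 < q)
        hu.aemeasurable (aemeasurable_const (b := (1 : ℝ≥0∞)))
      simp only [mul_one, lintegral_const, one_mul] at h8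
      rw [Pool.Agent.Y251.CP.pi_univ] at h8
      refine (ENNReal.rpow_le_rpow h3 hq0.le).trans ?_
      rw [ENNReal.mul_rpow_of_nonneg _ _ hq0.le]
      refine (mul_le_mul_right h8 _).trans (le_of_eq ?_)
      rw [hN]
      ring
    rw [← lintegral_const_mul _ hGm]
    calc ∫⁻ x in {x : ℂ | 1 / 4 ≤ ‖x‖}ᶜ, ENNReal.ofReal (4 * ρ ^ 2) * G x
        ≤ ∫⁻ x in {x : ℂ | 1 / 4 ≤ ‖x‖}ᶜ, (2 ^ q * ENNReal.ofReal (2 * Real.pi) ^ (q - 1) * N) *
            (ENNReal.ofReal (4 * ρ ^ 2) * ENNReal.ofReal (wt ((2 * ρ) • x))) := by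
          refine setLIntegral_mono' hS.compl fun x hx => ?_
          rw [hG]
          simp only
          rw [← mul_assoc, mul_comm]
          exact mul_le_mul_left (hT x hx) _
      _ ≤ ∫⁻ x, (2 ^ q * ENNReal.ofReal (2 * Real.pi) ^ (q - 1) * N) *
            (ENNReal.ofReal (4 * ρ ^ 2) * ENNReal.ofReal (wt ((2 * ρ) • x))) :=
          setLIntegral_le_lintegral _ _
      _ = (2 ^ q * ENNReal.ofReal (2 * Real.pi) ^ (q - 1) * N) * (ENNReal.ofReal (4 * ρ ^ 2) *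
            ∫⁻ x : ℂ, ENNReal.ofReal (wt ((2 * ρ) • x))) := by
          rw [lintegral_const_mul _ (hwm.const_mul _), lintegral_const_mul _ hwm]
      _ = K * N := by
          rw [lint_smul (fun x => ENNReal.ofReal (wt x)) wt_meas.ennreal_ofReal (by positivity),
            ← mul_assoc (ENNReal.ofReal (4 * ρ ^ 2)), ← ENNReal.ofReal_mul (by positivity)]
          have h9 : 4 * ρ ^ 2 * ((2 * ρ) ^ 2)⁻¹ = 1 := by
            field_simp
            ring
          have h10 : ∫⁻ x : ℂ, ENNReal.ofReal (wt x) = ENNReal.ofReal (4 * Real.pi) := by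
            rw [← wm_univ]
            unfold wm
            rw [withDensity_apply _ MeasurableSet.univ, Measure.restrict_univ]
          rw [h9, h10, ENNReal.ofReal_one, one_mul, hK]
          ring
  rw [h1, ← lintegral_add_compl G hS, mul_add]
  refine (add_le_add hfar hnear).trans (le_of_eq ?_)
  push_cast
  rw [ENNReal.coe_toNNReal hKt]
  ring

/-- polar coordinates in the plane -/
theorem polarC (g : ℂ → ℝ≥0∞) (hg : Measurable g) :
    ∫⁻ z, g z = ∫⁻ s in Ioi (0 : ℝ), ENNReal.ofReal s *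
      ∫⁻ θ in Ioc (-Real.pi) Real.pi, g (0 + s * cexp (θ * I)) := by
  have e2 : ∀ p : ℝ × ℝ, Complex.polarCoord.symm p = 0 + p.1 * cexp (p.2 * I) := by
    intro p
    rw [Complex.polarCoord_symm_apply, exp_mul_I]
    push_cast
    ring
  have htar : polarCoord.target = Ioi (0 : ℝ) ×ˢ Ioo (-Real.pi) Real.pi := rfl
  rw [← Complex.lintegral_comp_polarCoord_symm, htar]
  have hc : Continuous fun p : ℝ × ℝ => (0 + p.1 * cexp (p.2 * I) : ℂ) := by fun_prop
  have hmm : Measurable fun p : ℝ × ℝ => ENNReal.ofReal p.1 • g (0 + p.1 * cexp (p.2 * I)) :=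
    measurable_fst.ennreal_ofReal.mul (hg.comp hc.measurable)
  simp_rw [e2]
  rw [Measure.volume_eq_prod, ← Measure.prod_restrict, lintegral_prod _ hmm.aemeasurable]
  refine lintegral_congr fun s => ?_
  simp only [smul_eq_mul]
  rw [lintegral_const_mul' _ _ ENNReal.ofReal_ne_top,
    Measure.restrict_congr_set Ioo_ae_eq_Ioc]

/-- integration over a disc with respect to the spherical measure -/
theorem polar_wm : ∃ C : ℝ≥0, ∀ (h : ℂ → ℝ≥0∞) (r : ℝ) (N : ℝ≥0∞), Measurable h →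
    (∀ s : ℝ, 0 < s → s < r →
      ∫⁻ θ in Ioc (-Real.pi) Real.pi, h (0 + s * cexp (θ * I)) ≤ N) →
    ∫⁻ z in ball (0 : ℂ) r, h z ∂wm ≤ C * N := by
  have hpi := Real.pi_pos
  have hwc : ∀ (s : ℝ) (θ : ℝ), wt (0 + s * cexp (θ * I)) = wt (s : ℂ) := by
    intro s θ
    unfold Pool.Agent.Helper793.Nir.wt
    rw [zero_add, norm_mul, norm_exp_ofReal_mul_I, mul_one]
  set K : ℝ≥0∞ := ∫⁻ s in Ioi (0 : ℝ), ENNReal.ofReal s * ENNReal.ofReal (wt (s : ℂ)) with hK
  have hKm : Measurable fun s : ℝ => ENNReal.ofReal s * ENNReal.ofReal (wt (s : ℂ)) :=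
    measurable_id.ennreal_ofReal.mul (wt_meas.comp measurable_ofReal).ennreal_ofReal
  have hKt : K ≠ ∞ := by
    have h1 : ∫⁻ x : ℂ, ENNReal.ofReal (wt x) = ENNReal.ofReal (4 * Real.pi) := by
      rw [← wm_univ]
      unfold wm
      rw [withDensity_apply _ MeasurableSet.univ, Measure.restrict_univ]
    rw [polarC _ wt_meas.ennreal_ofReal] at h1
    simp_rw [hwc] at h1
    simp only [lintegral_const, Measure.restrict_apply MeasurableSet.univ, univ_inter,
      Real.volume_Ioc] at h1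
    have h2 : ∫⁻ s in Ioi (0 : ℝ), ENNReal.ofReal s * (ENNReal.ofReal (wt (s : ℂ)) *
        ENNReal.ofReal (Real.pi - -Real.pi)) = K * ENNReal.ofReal (Real.pi - -Real.pi) := by
      rw [hK, ← lintegral_mul_const _ hKm]
      exact lintegral_congr fun s => by rw [mul_assoc]
    rw [h2] at h1
    intro h3
    rw [h3, ENNReal.top_mul] at h1
    · exact ENNReal.ofReal_ne_top h1.symm
    · rw [Ne, ENNReal.ofReal_eq_zero, not_le]
      linarith
  refine ⟨K.toNNReal, fun h r N hm hN => ?_⟩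
  rw [ENNReal.coe_toNNReal hKt]
  have hmm : Measurable fun z => ENNReal.ofReal (wt z) * (ball (0 : ℂ) r).indicator h z :=
    wt_meas.ennreal_ofReal.mul (hm.indicator measurableSet_ball)
  rw [← lintegral_indicator measurableSet_ball, wm_lint _ (hm.indicator measurableSet_ball),
    polarC _ hmm, hK, ← lintegral_mul_const _ hKm]
  refine setLIntegral_mono' measurableSet_Ioi fun s hs => ?_
  have hs' : 0 < s := hs
  rw [mul_assoc]
  refine mul_le_mul_right ?_ _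
  simp_rw [hwc]
  rw [lintegral_const_mul' _ _ ENNReal.ofReal_ne_top]
  refine mul_le_mul_right ?_ _
  by_cases hsr : s < r
  · refine le_trans (le_of_eq (lintegral_congr fun θ => ?_)) (hN s hs' hsr)
    rw [indicator_of_mem (on_circ 0 hs' hsr θ)]
  · have h1 : ∀ θ : ℝ, (ball (0 : ℂ) r).indicator h (0 + s * cexp (θ * I)) = 0 := by
      intro θ
      rw [indicator_of_notMem]
      rw [mem_ball, dist_eq_norm, add_sub_cancel_left, norm_mul, norm_exp_ofReal_mul_I,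
        mul_one, norm_real, Real.norm_of_nonneg hs'.le]
      exact hsr
    simp only [h1, lintegral_zero, zero_le]

end Pool.Agent.Y251.SP
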