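import Pool.Agent.Y251.SP.A6
set_option autoImplicit false

/-! # Holomorphic densities on spherical caps -/

namespace Pool.Agent.Y251.SP

open MeasureTheory Set Metric Complex Filter
open Pool.Agent.Helper793.Nir (E3 stv stv_cont wt wt_pos)
open Pool.Agent.Y251.CP
open scoped ENNReal NNReal ComplexConjugate Topology RealInnerProductSpace

theorem ind_lqS : ∃ C : ℝ≥0, ∀ (q : ℝ), 0 < q → ∀ (F : ℂ → ℂ) (r : ℝ),
    Measurable ((ball (0 : ℂ) r).indicator F) → ∀ N : ℝ≥0∞, (∀ s : ℝ, 0 < s → s < r →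
      ∫⁻ θ in Ioc (-Real.pi) Real.pi, ‖F (0 + s * cexp (θ * I))‖ₑ ^ q ≤ N) →
    ∫⁻ z, ‖(ball (0 : ℂ) r).indicator F z‖ₑ ^ q ∂wm ≤ C * N := by
  obtain ⟨C, hC⟩ := polar_wm
  refine ⟨C, fun q hq F r hm N hN => ?_⟩
  have e1 : ∀ z, ‖(ball (0 : ℂ) r).indicator F z‖ₑ ^ q =
      (ball (0 : ℂ) r).indicator (fun z => ‖(ball (0 : ℂ) r).indicator F z‖ₑ ^ q) z := by
    intro z
    by_cases hz : z ∈ ball (0 : ℂ) r
    · rw [indicator_of_mem hz, indicator_of_mem hz, indicator_of_mem hz]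
    · rw [indicator_of_notMem hz, indicator_of_notMem hz, enorm_zero,
        ENNReal.zero_rpow_of_pos hq]
  rw [lintegral_congr e1, lintegral_indicator measurableSet_ball]
  refine hC _ r N (hm.enorm.pow_const q) fun s hs1 hs2 => ?_
  refine le_trans (le_of_eq (lintegral_congr fun θ => ?_)) (hN s hs1 hs2)
  rw [indicator_of_mem (on_circ 0 hs1 hs2 θ)]

theorem cap_hol0 {q : ℝ} (hq : 3 < q) : ∃ C : ℝ≥0, ∀ (r : ℝ) (F : ℂ → ℂ),
    DifferentiableOn ℂ F (ball (0 : ℂ) r) → ∀ ρ : ℝ, 0 < ρ → ρ < r → ∀ N : ℝ≥0∞,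
    (∀ s : ℝ, 0 < s → s < r →
      ∫⁻ θ in Ioc (-Real.pi) Real.pi, ‖F (0 + s * cexp (θ * I))‖ₑ ^ q ≤ N) →
    ∫⁻ x, ‖ES ((ball (0 : ℂ) ρ).indicator F) x‖ₑ ^ q ≤ C * N := by
  obtain ⟨C1, _, hC1⟩ := mainS hq
  obtain ⟨C2, hC2⟩ := disc_potS (q := q) (by linarith)
  obtain ⟨C3, hC3⟩ := ind_lqS
  refine ⟨C1 * (C3 + C2), fun r F hF ρ hρ hρr N hN => ?_⟩
  have hq0 : 0 < q := by linarith
  have hsubρ : closedBall (0 : ℂ) ρ ⊆ ball (0 : ℂ) r := closedBall_subset_ball hρr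
  have hm : Measurable ((ball (0 : ℂ) ρ).indicator F) :=
    ind_meas measurableSet_ball (hF.continuousOn.mono (ball_subset_closedBall.trans hsubρ))
  have hmc : Measurable ((closedBall (0 : ℂ) ρ).indicator F) :=
    ind_meas measurableSet_closedBall (hF.continuousOn.mono hsubρ)
  have hs : ∀ z : ℂ, ρ ≤ ‖z‖ → (ball (0 : ℂ) ρ).indicator F z = 0 := by
    intro z hz
    rw [indicator_of_notMem]
    rw [mem_ball_zero_iff, not_lt]
    exact hz
  have hsf : SFinite (cnu 0 ρ) := by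
    unfold cnu
    infer_instance
  have ham : Measurable fun z : ℂ => -(1 / 2) * ((closedBall (0 : ℂ) ρ).indicator F z * (z - 0)) :=
    (hmc.mul (measurable_id.sub_const 0)).const_mul _
  refine (hC1 _ _ _ ρ hsf hm ham hs (disc_wd hρ hρr hF)).trans ?_
  rw [ENNReal.coe_mul, mul_assoc]
  refine mul_le_mul_right ?_ _
  rw [ENNReal.coe_add, add_mul]
  refine add_le_add (hC3 q hq0 F ρ hm N fun s hs1 hs2 => hN s hs1 (hs2.trans hρr)) ?_
  have hw : Continuous fun θ : ℝ => (0 : ℂ) + ρ * cexp (θ * I) := by fun_prop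
  have hfc : Continuous fun θ : ℝ => F (0 + ρ * cexp (θ * I)) :=
    circ_cont hρ hρr hF.continuousOn
  have e2 : ∀ z, pot (cnu 0 ρ) (fun z => -(1 / 2) *
      ((closedBall (0 : ℂ) ρ).indicator F z * (z - 0))) z ≤
      TT (fun θ => ‖F (0 + ρ * cexp (θ * I))‖ₑ) ρ z := by
    intro z
    unfold pot cnu TT
    rw [lintegral_map _ hw.measurable]
    · refine lintegral_mono fun θ => ?_
      beta_reduce
      rw [indicator_of_mem, sub_zero]
      · rw [enorm_mul, enorm_mul]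
        have h3 : ‖(-(1 / 2) : ℂ)‖ₑ ≤ 1 := by
          rw [← ofReal_norm]
          apply ENNReal.ofReal_le_one.2
          rw [norm_neg]
          norm_num
        have h4 : ‖(0 : ℂ) + (ρ : ℂ) * cexp (θ * I)‖ₑ = ENNReal.ofReal ρ := by
          rw [← ofReal_norm, zero_add, norm_mul, norm_exp_ofReal_mul_I, mul_one, norm_real,
            Real.norm_of_nonneg hρ.le]
        rw [h4]
        calc ‖(-(1 / 2) : ℂ)‖ₑ * (‖F (0 + ρ * cexp (θ * I))‖ₑ * ENNReal.ofReal ρ) *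
              ‖z - (0 + ρ * cexp (θ * I))‖ₑ⁻¹
            ≤ 1 * (‖F (0 + ρ * cexp (θ * I))‖ₑ * ENNReal.ofReal ρ) *
              ‖z - (0 + ρ * cexp (θ * I))‖ₑ⁻¹ :=
                mul_le_mul_left (mul_le_mul_left h3 _) _
          _ = _ := by ring
      · rw [mem_closedBall, dist_eq_norm, add_sub_cancel_left, norm_mul, norm_exp_ofReal_mul_I,
          mul_one, norm_real, Real.norm_of_nonneg hρ.le]
    · have h8 : Measurable fun w : ℂ => z - w := measurable_const.sub measurable_id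
      exact ham.enorm.mul h8.enorm.inv
  calc ∫⁻ z, pot (cnu 0 ρ) (fun z => -(1 / 2) *
      ((closedBall (0 : ℂ) ρ).indicator F z * (z - 0))) z ^ q ∂wm
      ≤ ∫⁻ z, TT (fun θ => ‖F (0 + ρ * cexp (θ * I))‖ₑ) ρ z ^ q ∂wm :=
        lintegral_mono fun z => ENNReal.rpow_le_rpow (e2 z) hq0.le
    _ ≤ C2 * ∫⁻ θ in Ioc (-Real.pi) Real.pi, ‖F (0 + ρ * cexp (θ * I))‖ₑ ^ q :=
        hC2 ρ hρ _ hfc.measurable.enorm
    _ ≤ _ := mul_le_mul_right (hN ρ hρ hρr) _

theorem norm_ph (x : E3) (z : ℂ) : ‖cexp (-(I * (⟪x, stv z⟫ : ℝ)))‖ = 1 := by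
  have : -(I * ((⟪x, stv z⟫ : ℝ) : ℂ)) = ((-⟪x, stv z⟫ : ℝ) : ℂ) * I := by
    push_cast
    ring
  rw [this, norm_exp_ofReal_mul_I]

theorem cont_ph (x : E3) : Continuous fun z : ℂ => cexp (-(I * (⟪x, stv z⟫ : ℝ))) := by
  have h3 : Continuous fun z : ℂ => ⟪x, stv z⟫ := continuous_const.inner stv_cont
  exact continuous_exp.comp (continuous_const.mul (continuous_ofReal.comp h3)).neg

theorem wm_integrable {f : ℂ → ℂ} (hf : Measurable f) {q : ℝ} (hq : 1 < q)
    (h : ∫⁻ z, ‖f z‖ₑ ^ q ∂wm ≠ ∞) : Integrable f wm := by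
  refine ⟨hf.aestronglyMeasurable, ?_⟩
  by_contra h1
  have h2 : ∫⁻ z, ‖f z‖ₑ ∂wm = ∞ := not_lt_top_iff.1 h1
  have h3 := hold_wm hq _ hf.enorm
  rw [h2, ENNReal.top_rpow_of_pos (by linarith), top_le_iff] at h3
  exact ENNReal.mul_ne_top h
    (ENNReal.rpow_lt_top_of_nonneg (by linarith) ENNReal.ofReal_ne_top).ne h3

theorem cap_hol {q : ℝ} (hq : 3 < q) : ∃ C : ℝ≥0, ∀ (r : ℝ) (F : ℂ → ℂ), 0 < r →
    DifferentiableOn ℂ F (ball (0 : ℂ) r) → ∀ N : ℝ≥0∞,
    (∀ s : ℝ, 0 < s → s < r →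
      ∫⁻ θ in Ioc (-Real.pi) Real.pi, ‖F (0 + s * cexp (θ * I))‖ₑ ^ q ≤ N) →
    ∫⁻ x, ‖ES ((ball (0 : ℂ) r).indicator F) x‖ₑ ^ q ≤ C * N := by
  obtain ⟨C, hC⟩ := cap_hol0 hq
  obtain ⟨C3, hC3⟩ := ind_lqS
  refine ⟨C + 1, fun r F hr hF N hN => ?_⟩
  have hq0 : 0 < q := by linarith
  have hm : Measurable ((ball (0 : ℂ) r).indicator F) := ind_meas measurableSet_ball hF.continuousOn
  by_cases hNt : N = ∞
  · rw [hNt, ENNReal.mul_top (by simp)]
    exact le_top
  have hlq := hC3 q hq0 F r hm N hN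
  have hi : Integrable ((ball (0 : ℂ) r).indicator F) wm :=
    wm_integrable hm (by linarith : 1 < q)
      (hlq.trans_lt (ENNReal.mul_lt_top ENNReal.coe_lt_top (lt_top_iff_ne_top.2 hNt))).ne
  set ρ : ℕ → ℝ := fun n => r - r * (1 / ((n : ℝ) + 2)) with hρ
  have hρ1 : ∀ n, 0 < ρ n := by
    intro n
    have h1 : 1 / ((n : ℝ) + 2) ≤ 1 / 2 :=
      one_div_le_one_div_of_le (by norm_num) (by linarith [Nat.cast_nonneg (α := ℝ) n])
    simp only [hρ]
    nlinarith
  have hρ2 : ∀ n, ρ n < r := by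
    intro n
    have h1 : 0 < 1 / ((n : ℝ) + 2) := by positivity
    simp only [hρ]
    nlinarith
  have hρl : Tendsto ρ atTop (𝓝 r) := by
    have h1 : Tendsto (fun n : ℕ => 1 / ((n : ℝ) + 2)) atTop (𝓝 0) := by
      have h2 : Tendsto (fun n : ℕ => (n : ℝ) + 2) atTop atTop :=
        tendsto_atTop_add_const_right _ _ tendsto_natCast_atTop_atTop
      have h4 := tendsto_inv_atTop_zero.comp h2
      refine h4.congr fun n => ?_
      rw [one_div]
      rfl
    have h3 := (tendsto_const_nhds (x := r)).sub (h1.const_mul r)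
    rw [mul_zero, sub_zero] at h3
    exact h3
  have hmn : ∀ n, Measurable ((ball (0 : ℂ) (ρ n)).indicator F) := fun n =>
    ind_meas measurableSet_ball (hF.continuousOn.mono (ball_subset_ball (hρ2 n).le))
  refine fatou_le volume (fun n x => ‖ES ((ball (0 : ℂ) (ρ n)).indicator F) x‖ₑ ^ q) _
    (fun n => (ES_meas _ (hmn n)).enorm.pow_const q) _ (fun n => ?_)
    (Eventually.of_forall fun x => ?_)
  · refine (hC r F hF (ρ n) (hρ1 n) (hρ2 n) N hN).trans (mul_le_mul_left ?_ _)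
    exact_mod_cast le_self_add
  · have h1 : Tendsto (fun n => ES ((ball (0 : ℂ) (ρ n)).indicator F) x) atTop
        (𝓝 (ES ((ball (0 : ℂ) r).indicator F) x)) := by
      unfold ES
      refine tendsto_integral_of_dominated_convergence
        (fun z => ‖(ball (0 : ℂ) r).indicator F z‖)
        (fun n => ((hmn n).mul (cont_ph x).measurable).aestronglyMeasurable) hi.norm
        (fun n => Eventually.of_forall fun z => ?_) (Eventually.of_forall fun z => ?_)
      · rw [norm_mul, norm_ph, mul_one]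
        by_cases hz : z ∈ ball (0 : ℂ) (ρ n)
        · rw [indicator_of_mem hz, indicator_of_mem (ball_subset_ball (hρ2 n).le hz)]
        · rw [indicator_of_notMem hz, norm_zero]
          exact norm_nonneg _
      · refine Tendsto.mul_const _ ?_
        by_cases hz : z ∈ ball (0 : ℂ) r
        · have h2 : ∀ᶠ n in atTop, dist z 0 < ρ n := hρl.eventually_const_lt (mem_ball.1 hz)
          refine tendsto_const_nhds.congr' ?_
          filter_upwards [h2] with n hn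
          rw [indicator_of_mem hz, indicator_of_mem (mem_ball.2 hn)]
        · refine tendsto_const_nhds.congr fun n => ?_
          rw [indicator_of_notMem hz, indicator_of_notMem]
          exact fun h => hz (ball_subset_ball (hρ2 n).le h)
    exact (ENNReal.continuous_rpow_const.tendsto _).comp
      ((continuous_enorm.tendsto _).comp h1)

theorem ES_conj (f : ℂ → ℂ) (x : E3) : ES (fun z => conj (f z)) x = conj (ES f (-x)) := by
  unfold ES
  rw [← integral_conj]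
  refine integral_congr_ae (Eventually.of_forall fun z => ?_)
  simp only [map_mul, ← exp_conj, map_neg, conj_ofReal, conj_I, inner_neg_left]
  congr 2
  push_cast
  ring

theorem negE (G : E3 → ℝ≥0∞) (hG : Measurable G) : ∫⁻ x, G (-x) = ∫⁻ x, G x :=
  (LinearIsometryEquiv.neg ℝ (E := E3)).measurePreserving.lintegral_comp hG

end Pool.Agent.Y251.SP
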