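import Pool.Agent.Y251.SP.A7
import Pool.Agent.Y251.CP.D11
set_option autoImplicit false

/-! # Harmonic densities on spherical caps -/

namespace Pool.Agent.Y251.SP

open MeasureTheory Set Metric Complex Filter
open Pool.Agent.Helper793.Nir (E3 stv stv_cont wt wt_pos)
open Pool.Agent.Y251.CP
open scoped ENNReal NNReal ComplexConjugate Topology RealInnerProductSpace

/-- **The estimate for harmonic densities on spherical caps**, `3 < q < 4` -/
theorem harm0S {q : ℝ} (hq : 3 < q) (hq4 : q < 4) : ∃ C : ℝ≥0, ∀ (r : ℝ), 0 < r →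
    ∀ F G : ℂ → ℂ, DifferentiableOn ℂ F (ball (0 : ℂ) r) →
    DifferentiableOn ℂ G (ball (0 : ℂ) r) → ∀ N : ℝ, (∀ s : ℝ, 0 < s → s < r →
      ∫ θ in Ioc (-Real.pi) Real.pi,
        ‖F (0 + s * cexp (θ * I)) + conj (G (0 + s * cexp (θ * I)))‖ ^ 4 ≤ N) →
    ∫⁻ x, ‖ES ((ball (0 : ℂ) r).indicator fun z => F z + conj (G z)) x‖ₑ ^ q ≤
      C * ENNReal.ofReal N ^ (q / 4) := by
  obtain ⟨C, hC⟩ := cap_hol hq
  obtain ⟨C3, hC3⟩ := ind_lqS
  have hq0 : 0 < q := by linarith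
  have hwf := wm_fin
  have hcst : ENNReal.ofReal (3 ^ q) * (3 * (C * (768 ^ (q / 4) *
      ENNReal.ofReal (2 * Real.pi) ^ (1 - q / 4)))) ≠ ∞ := by
    refine ENNReal.mul_ne_top ENNReal.ofReal_ne_top (ENNReal.mul_ne_top (by norm_num)
      (ENNReal.mul_ne_top ENNReal.coe_ne_top (ENNReal.mul_ne_top ?_ ?_)))
    · exact (ENNReal.rpow_lt_top_of_nonneg (by positivity) (by norm_num)).ne
    · exact (ENNReal.rpow_lt_top_of_nonneg (by linarith) ENNReal.ofReal_ne_top).ne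
  refine ⟨(ENNReal.ofReal (3 ^ q) * (3 * (C * (768 ^ (q / 4) *
      ENNReal.ofReal (2 * Real.pi) ^ (1 - q / 4))))).toNNReal, fun r hr F G hF hG N hN => ?_⟩
  rw [ENNReal.coe_toNNReal hcst]
  -- one holomorphic function
  have key : ∀ f : ℂ → ℂ, DifferentiableOn ℂ f (ball (0 : ℂ) r) → (∀ s : ℝ, 0 < s → s < r →
      ∫ θ in Ioc (-Real.pi) Real.pi, ‖f (0 + s * cexp (θ * I))‖ ^ 4 ≤ 768 * N) →
      ∫⁻ x, ‖ES ((ball (0 : ℂ) r).indicator f) x‖ₑ ^ q ≤ C * (768 ^ (q / 4) *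
        ENNReal.ofReal (2 * Real.pi) ^ (1 - q / 4)) * ENNReal.ofReal N ^ (q / 4) := by
    intro f hf hfN
    refine (hC r f hr hf ((768 * ENNReal.ofReal N) ^ (q / 4) *
      ENNReal.ofReal (2 * Real.pi) ^ (1 - q / 4)) fun s hs1 hs2 => ?_).trans (le_of_eq ?_)
    · have hfc := circ_cont hs1 hs2 hf.continuousOn
      refine circ_hold hq0 hq4 hfc ?_
      rw [lint4 hfc, ← ENNReal.ofReal_ofNat, ← ENNReal.ofReal_mul (by norm_num)]
      exact ENNReal.ofReal_le_ofReal (hfN s hs1 hs2)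
    · rw [ENNReal.mul_rpow_of_nonneg _ _ (by positivity)]
      ring
  have int : ∀ f : ℂ → ℂ, DifferentiableOn ℂ f (ball (0 : ℂ) r) → (∀ s : ℝ, 0 < s → s < r →
      ∫ θ in Ioc (-Real.pi) Real.pi, ‖f (0 + s * cexp (θ * I))‖ ^ 4 ≤ 768 * N) →
      Integrable ((ball (0 : ℂ) r).indicator f) wm := by
    intro f hf hfN
    have hm : Measurable ((ball (0 : ℂ) r).indicator f) :=
      ind_meas measurableSet_ball hf.continuousOn
    refine wm_integrable hm (by norm_num : (1 : ℝ) < 4) ?_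
    refine ((hC3 4 (by norm_num) f r hm (ENNReal.ofReal (768 * N))
      fun s hs1 hs2 => ?_).trans_lt ?_).ne
    · rw [lint4 (circ_cont hs1 hs2 hf.continuousOn)]
      exact ENNReal.ofReal_le_ofReal (hfN s hs1 hs2)
    · exact ENNReal.mul_lt_top ENNReal.coe_lt_top ENNReal.ofReal_lt_top
  have hFd : DifferentiableOn ℂ (fun z => F z - F 0) (ball (0 : ℂ) r) := hF.sub_const _
  have hGd : DifferentiableOn ℂ (fun z => G z - G 0) (ball (0 : ℂ) r) := hG.sub_const _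
  have b1 : ∀ s : ℝ, 0 < s → s < r →
      ∫ θ in Ioc (-Real.pi) Real.pi, ‖F (0 + s * cexp (θ * I)) - F 0‖ ^ 4 ≤ 768 * N :=
    fun s hs1 hs2 => ((riesz_circ hs1 hs2 hF hG).1).trans
      (mul_le_mul_of_nonneg_left (hN s hs1 hs2) (by norm_num))
  have b2 : ∀ s : ℝ, 0 < s → s < r →
      ∫ θ in Ioc (-Real.pi) Real.pi, ‖G (0 + s * cexp (θ * I)) - G 0‖ ^ 4 ≤ 768 * N :=
    fun s hs1 hs2 => ((riesz_circ hs1 hs2 hF hG).2.1).trans
      (mul_le_mul_of_nonneg_left (hN s hs1 hs2) (by norm_num))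
  have b3 : ∀ s : ℝ, 0 < s → s < r →
      ∫ _θ in Ioc (-Real.pi) Real.pi, ‖F 0 + conj (G 0)‖ ^ 4 ≤ 768 * N := by
    intro s hs1 hs2
    have h1 := ((riesz_circ hs1 hs2 hF hG).2.2).trans (hN s hs1 hs2)
    have h2 : ∫ _θ in Ioc (-Real.pi) Real.pi, ‖F 0 + conj (G 0)‖ ^ 4 =
        2 * Real.pi * ‖F 0 + conj (G 0)‖ ^ 4 := by
      rw [setIntegral_const, Real.volume_real_Ioc_of_le (by linarith [Real.pi_pos]), smul_eq_mul]
      ring
    rw [h2]
    have h3 : 0 ≤ N := le_trans (by positivity) h1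
    linarith
  have k1 := key _ hFd b1
  have k2 := key _ hGd b2
  have k3 := key (fun _ => F 0 + conj (G 0)) (differentiableOn_const _) b3
  have i1 := int _ hFd b1
  have i2 := int _ hGd b2
  have i3 := int (fun _ => F 0 + conj (G 0)) (differentiableOn_const _) b3
  set f1 : ℂ → ℂ := (ball (0 : ℂ) r).indicator fun z => F z - F 0 with hf1
  set f2 : ℂ → ℂ := (ball (0 : ℂ) r).indicator fun z => G z - G 0 with hf2
  set f3 : ℂ → ℂ := (ball (0 : ℂ) r).indicator fun _ => F 0 + conj (G 0) with hf3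
  have m1 : Measurable f1 := ind_meas measurableSet_ball hFd.continuousOn
  have m2 : Measurable f2 := ind_meas measurableSet_ball hGd.continuousOn
  have m3 : Measurable f3 := measurable_const.indicator measurableSet_ball
  have hdec : ∀ x, ES ((ball (0 : ℂ) r).indicator fun z => F z + conj (G z)) x =
      ES f1 x + conj (ES f2 (-x)) + ES f3 x := by
    intro x
    rw [← ES_conj]
    have hce := (cont_ph x).aestronglyMeasurable (μ := wm)
    have hno : ∀ᵐ z ∂wm, ‖cexp (-(I * (⟪x, stv z⟫ : ℝ)))‖ ≤ 1 :=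
      Eventually.of_forall fun z => (norm_ph x z).le
    have j1 : Integrable (fun z : ℂ => f1 z * cexp (-(I * (⟪x, stv z⟫ : ℝ)))) wm :=
      i1.mul_bdd hce hno
    have i2c : Integrable (fun z => conj (f2 z)) wm := by
      refine (integrable_norm_iff (continuous_conj.measurable.comp m2).aestronglyMeasurable).1 ?_
      simp only [Function.comp_apply, RCLike.norm_conj]
      exact i2.norm
    have j2 : Integrable (fun z : ℂ => conj (f2 z) * cexp (-(I * (⟪x, stv z⟫ : ℝ)))) wm :=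
      i2c.mul_bdd hce hno
    have j3 : Integrable (fun z : ℂ => f3 z * cexp (-(I * (⟪x, stv z⟫ : ℝ)))) wm :=
      i3.mul_bdd hce hno
    unfold ES
    have i12 := integral_add j1 j2
    have i123 := integral_add (j1.add j2) j3
    simp only [Pi.add_apply] at i12 i123
    rw [← i12, ← i123]
    refine integral_congr_ae (Eventually.of_forall fun z => ?_)
    simp only [hf1, hf2, hf3]
    by_cases hz : z ∈ ball (0 : ℂ) r
    · simp only [indicator_of_mem hz, map_sub]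
      ring
    · simp only [indicator_of_notMem hz, map_zero]
      ring
  have hneg : ∫⁻ x, ‖ES f2 (-x)‖ₑ ^ q = ∫⁻ x, ‖ES f2 x‖ₑ ^ q :=
    negE _ ((ES_meas f2 m2).enorm.pow_const q)
  calc ∫⁻ x, ‖ES ((ball (0 : ℂ) r).indicator fun z => F z + conj (G z)) x‖ₑ ^ q
      ≤ ∫⁻ x, ENNReal.ofReal (3 ^ q) * (‖ES f1 x‖ₑ ^ q + ‖ES f2 (-x)‖ₑ ^ q +
          ‖ES f3 x‖ₑ ^ q) := by
        refine lintegral_mono fun x => ?_
        rw [hdec x]
        have h4 : ‖ES f1 x + conj (ES f2 (-x)) + ES f3 x‖ₑ ≤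
            ‖ES f1 x‖ₑ + ‖ES f2 (-x)‖ₑ + ‖ES f3 x‖ₑ := by
          refine (enorm_add_le _ _).trans (add_le_add ((enorm_add_le _ _).trans ?_) le_rfl)
          rw [enorm_conj]
        exact (ENNReal.rpow_le_rpow h4 hq0.le).trans (three_rpow _ _ _ hq0.le)
    _ = ENNReal.ofReal (3 ^ q) * ((∫⁻ x, ‖ES f1 x‖ₑ ^ q) + (∫⁻ x, ‖ES f2 x‖ₑ ^ q) +
          ∫⁻ x, ‖ES f3 x‖ₑ ^ q) := by
        rw [lintegral_const_mul' _ _ ENNReal.ofReal_ne_top,
          lintegral_add_right _ ((ES_meas f3 m3).enorm.pow_const q),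
          lintegral_add_left ((ES_meas f1 m1).enorm.pow_const q), hneg]
    _ ≤ ENNReal.ofReal (3 ^ q) * (C * (768 ^ (q / 4) *
        ENNReal.ofReal (2 * Real.pi) ^ (1 - q / 4)) * ENNReal.ofReal N ^ (q / 4) +
        C * (768 ^ (q / 4) *
        ENNReal.ofReal (2 * Real.pi) ^ (1 - q / 4)) * ENNReal.ofReal N ^ (q / 4) +
        C * (768 ^ (q / 4) *
        ENNReal.ofReal (2 * Real.pi) ^ (1 - q / 4)) * ENNReal.ofReal N ^ (q / 4)) :=
        mul_le_mul_right (add_le_add (add_le_add k1 k2) k3) _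
    _ = _ := by ring

theorem harm_qS {q : ℝ} (hq : 3 < q) : ∃ C : ℝ, 0 < C ∧ ∀ (r : ℝ), 0 < r →
    ∀ F G : ℂ → ℂ, DifferentiableOn ℂ F (ball (0 : ℂ) r) →
    DifferentiableOn ℂ G (ball (0 : ℂ) r) → ∀ M : ℝ, 0 ≤ M → (∀ s : ℝ, 0 < s → s < r →
      ∫ θ in Ioc (-Real.pi) Real.pi,
        ‖F (0 + s * cexp (θ * I)) + conj (G (0 + s * cexp (θ * I)))‖ ^ 4 ≤ 2 * Real.pi * M ^ 4) →
    Measurable ((ball (0 : ℂ) r).indicator fun z => F z + conj (G z)) ∧
    ∫⁻ z, ‖(ball (0 : ℂ) r).indicator (fun z => F z + conj (G z)) z‖ₑ ∂wm ≤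
      ENNReal.ofReal (C * M) ∧
    ∫⁻ x, ‖ES ((ball (0 : ℂ) r).indicator fun z => F z + conj (G z)) x‖ₑ ^ q ≤
      ENNReal.ofReal (C * M ^ q) := by
  have hpi := Real.pi_pos
  -- an exponent below four
  obtain ⟨p, hp3, hp4, hpq⟩ : ∃ p : ℝ, 3 < p ∧ p < 4 ∧ p ≤ q := by
    refine ⟨min q (7 / 2), lt_min hq (by norm_num), ?_, min_le_left _ _⟩
    exact (min_le_right _ _).trans_lt (by norm_num)
  obtain ⟨C, hC⟩ := harm0S hp3 hp4
  obtain ⟨C3, hC3⟩ := ind_lqS
  have hq0 : 0 < q := by linarith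
  have hp0 : 0 < p := by linarith
  set A : ℝ := C3 * (2 * Real.pi) with hA
  have hA0 : 0 ≤ A := by positivity
  set K : ℝ := A ^ (q - p) * (C * (2 * Real.pi) ^ (p / 4)) with hK
  have hK0 : 0 ≤ K := by positivity
  refine ⟨A + K + 1, by positivity, ?_⟩
  intro r hr F G hF hG M hM hN
  have hGc : ContinuousOn (fun z => F z + conj (G z)) (ball (0 : ℂ) r) :=
    hF.continuousOn.add (continuous_conj.comp_continuousOn hG.continuousOn)
  have hm : Measurable ((ball (0 : ℂ) r).indicator fun z => F z + conj (G z)) :=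
    ind_meas measurableSet_ball hGc
  set h : ℂ → ℂ := (ball (0 : ℂ) r).indicator fun z => F z + conj (G z) with hh
  have h1 : ∫⁻ z, ‖h z‖ₑ ∂wm ≤ ENNReal.ofReal (A * M) := by
    have h2 := hC3 1 one_pos (fun z => F z + conj (G z)) r hm (ENNReal.ofReal (2 * Real.pi * M))
      fun s hs1 hs2 => circ_one (circ_cont hs1 hs2 hGc) hM (hN s hs1 hs2)
    simp only [ENNReal.rpow_one] at h2
    refine h2.trans (le_of_eq ?_)
    rw [← ENNReal.ofReal_coe_nnreal, ← ENNReal.ofReal_mul (by positivity), hA]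
    congr 1
    ring
  have h2 : ∫⁻ x, ‖ES h x‖ₑ ^ p ≤ ENNReal.ofReal (C * (2 * Real.pi) ^ (p / 4) * M ^ p) := by
    refine (hC r hr F G hF hG _ hN).trans (le_of_eq ?_)
    rw [ENNReal.ofReal_rpow_of_nonneg (by positivity) (by positivity), ← ENNReal.ofReal_coe_nnreal,
      ← ENNReal.ofReal_mul (by positivity)]
    congr 1
    rw [Real.mul_rpow (by positivity) (by positivity), ← Real.rpow_natCast M 4,
      ← Real.rpow_mul hM, mul_assoc]
    congr 3
    push_cast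
    ring
  have hMq : 0 ≤ M ^ q := Real.rpow_nonneg hM q
  refine ⟨hm, h1.trans (ENNReal.ofReal_le_ofReal ?_), ?_⟩
  · have : 0 ≤ (K + 1) * M := by positivity
    linarith
  have h3 : ∀ x, ‖ES h x‖ₑ ^ q ≤ ENNReal.ofReal (A * M) ^ (q - p) * ‖ES h x‖ₑ ^ p := by
    intro x
    have e1 : ‖ES h x‖ₑ ^ q = ‖ES h x‖ₑ ^ (q - p) * ‖ES h x‖ₑ ^ p := by
      rw [← ENNReal.rpow_add_of_nonneg _ _ (by linarith) hp0.le]
      congr 1
      ring
    rw [e1]
    exact mul_le_mul_left (ENNReal.rpow_le_rpow ((ES_sup h x).trans h1) (by linarith)) _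
  calc ∫⁻ x, ‖ES h x‖ₑ ^ q ≤ ∫⁻ x, ENNReal.ofReal (A * M) ^ (q - p) *
        ‖ES h x‖ₑ ^ p := lintegral_mono h3
    _ = ENNReal.ofReal (A * M) ^ (q - p) * ∫⁻ x, ‖ES h x‖ₑ ^ p :=
        lintegral_const_mul _ ((ES_meas h hm).enorm.pow_const p)
    _ ≤ ENNReal.ofReal (A * M) ^ (q - p) *
        ENNReal.ofReal (C * (2 * Real.pi) ^ (p / 4) * M ^ p) := mul_le_mul_right h2 _
    _ = ENNReal.ofReal (K * M ^ q) := by
        rw [ENNReal.ofReal_rpow_of_nonneg (by positivity) (by linarith),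
          ← ENNReal.ofReal_mul (by positivity)]
        congr 1
        have e2 : M ^ q = M ^ (q - p) * M ^ p := by
          rw [← Real.rpow_add_of_nonneg hM (by linarith) hp0.le]
          congr 1
          ring
        rw [Real.mul_rpow hA0 hM, hK, e2]
        ring
    _ ≤ _ := by
        apply ENNReal.ofReal_le_ofReal
        have : 0 ≤ (A + 1) * M ^ q := by positivity
        linarith

end Pool.Agent.Y251.SP
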