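import Pool.Agent.Y251.SP.A8
set_option autoImplicit false

/-! # Transfer to the surface measure of the unit sphere -/

namespace Pool.Agent.Y251.SP

open MeasureTheory Set Metric Complex Filter
open Pool.Agent.Helper793.Nir (E3 S2 sig ster ster_coe ster_cont rot rot_mp rot_coe rot_inj
  rot_cont stv stv_cont wt wt_pos)
open Pool.Agent.Y251.CP
open scoped ENNReal NNReal ComplexConjugate Topology RealInnerProductSpace

theorem lint_rot (A : E3 ≃ₗᵢ[ℝ] E3) (H : S2 → ℝ≥0∞) (hH : Measurable H) :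
    ∫⁻ x, H x ∂sig = ∫⁻ z, H (rot A (ster z)) ∂wm := by
  rw [← (rot_mp A).lintegral_comp hH, sig_map,
    lintegral_map (f := fun y => H (rot A y)) (hH.comp (rot_cont A).measurable)
      ster_cont.measurable]

theorem ft_ES (A : E3 ≃ₗᵢ[ℝ] E3) (h : S2 → ℂ) (hm : Measurable h) (ξ : E3) :
    ∫ x, cexp (-(2 * Real.pi * ⟪(x : E3), ξ⟫ : ℝ) * I) * h x ∂sig =
      ES (fun z => h (rot A (ster z))) ((2 * Real.pi) • A.symm ξ) := by
  have hc : Continuous fun x : S2 => cexp (-(2 * Real.pi * ⟪(x : E3), ξ⟫ : ℝ) * I) := by fun_prop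
  have hm2 : Measurable fun x : S2 => cexp (-(2 * Real.pi * ⟪(x : E3), ξ⟫ : ℝ) * I) * h x :=
    hc.measurable.mul hm
  have hm3 : Measurable fun x : S2 =>
      cexp (-(2 * Real.pi * ⟪((rot A x : S2) : E3), ξ⟫ : ℝ) * I) * h (rot A x) :=
    hm2.comp (rot_cont A).measurable
  rw [← (rot_mp A).integral_comp (rot_inj A), sig_map, integral_map
    ster_cont.measurable.aemeasurable hm3.aestronglyMeasurable]
  unfold ES
  refine integral_congr_ae (Eventually.of_forall fun z => ?_)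
  simp only
  rw [mul_comm]
  congr 2
  have h1 : ⟪((rot A (ster z) : S2) : E3), ξ⟫ = ⟪A.symm ξ, stv z⟫ := by
    rw [rot_coe, ster_coe]
    conv_lhs => rw [← A.apply_symm_apply ξ]
    rw [A.inner_map_map, real_inner_comm]
  rw [h1, real_inner_smul_left]
  push_cast
  ring

theorem scale_E (G : E3 → ℝ≥0∞) (hG : Measurable G) (A : E3 ≃ₗᵢ[ℝ] E3) :
    ∫⁻ ξ, G ((2 * Real.pi) • A.symm ξ) ≤ ∫⁻ x, G x := by
  have hpi := Real.pi_gt_three
  have hr : (2 * Real.pi) ≠ 0 := by positivity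
  have hGs : Measurable fun x : E3 => G ((2 * Real.pi) • x) :=
    hG.comp (measurable_const_smul (2 * Real.pi))
  have h0 : ∫⁻ ξ, G ((2 * Real.pi) • A.symm ξ) = ∫⁻ x, G ((2 * Real.pi) • x) :=
    A.symm.measurePreserving.lintegral_comp hGs
  have h := Measure.map_addHaar_smul (volume : Measure E3) hr
  have h1 : ∫⁻ x : E3, G ((2 * Real.pi) • x) =
      ∫⁻ x, G x ∂(Measure.map (fun x : E3 => (2 * Real.pi) • x) volume) := by
    rw [lintegral_map hG (measurable_const_smul (2 * Real.pi))]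
  rw [h0, h1, show (fun x : E3 => (2 * Real.pi) • x) = ((2 * Real.pi) • ·) from rfl, h,
    lintegral_smul_measure, smul_eq_mul]
  have h2 : ENNReal.ofReal |((2 * Real.pi) ^ Module.finrank ℝ E3)⁻¹| ≤ 1 := by
    apply ENNReal.ofReal_le_one.2
    rw [abs_of_nonneg (by positivity)]
    exact inv_le_one_of_one_le₀ (one_le_pow₀ (by linarith))
  calc _ ≤ 1 * ∫⁻ x, G x := mul_le_mul_left h2 _
    _ = _ := one_mul _

/-- the bounds for one-sided derivatives, for the surface measure -/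
theorem atomA {q : ℝ} (hq : 3 < q) : ∃ C : ℝ, 0 < C ∧ ∀ (M : ℝ), 0 ≤ M → ∀ (h : S2 → ℂ)
    (A : E3 ≃ₗᵢ[ℝ] E3) (R : ℝ) (a : ℂ → ℂ) (ν : Measure ℂ), Measurable h → Measurable a →
    SFinite ν → (∀ z, R ≤ ‖z‖ → h (rot A (ster z)) = 0) → WD (fun z => h (rot A (ster z))) ν a →
    (∫⁻ x, ‖h x‖ₑ ^ q ∂sig) + ∫⁻ z, (pot ν a z) ^ q * ENNReal.ofReal (wt z) ≤
      ENNReal.ofReal (M ^ q) →
    ∫⁻ x, ‖h x‖ₑ ∂sig ≤ ENNReal.ofReal (C * M) ∧
    ∫⁻ ξ, ‖∫ x, cexp (-(2 * Real.pi * ⟪(x : E3), ξ⟫ : ℝ) * I) * h x ∂sig‖ₑ ^ q ≤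
      ENNReal.ofReal (C * M ^ q) := by
  obtain ⟨C1, hC1p, hC1⟩ := mainS hq
  have hpi := Real.pi_gt_three
  have hC1r : (0 : ℝ) < C1 := hC1p
  refine ⟨4 * Real.pi + C1, by positivity, ?_⟩
  intro M hM h A R a ν hm ha hν hs hw hb
  have hq0 : 0 < q := by linarith
  have hMq : 0 ≤ M ^ q := Real.rpow_nonneg hM q
  have hfm : Measurable fun z => h (rot A (ster z)) :=
    hm.comp ((rot_cont A).measurable.comp ster_cont.measurable)
  have hN : (∫⁻ z, ‖h (rot A (ster z))‖ₑ ^ q ∂wm) + ∫⁻ z, pot ν a z ^ q ∂wm ≤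
      ENNReal.ofReal (M ^ q) := by
    refine le_trans (le_of_eq ?_) hb
    rw [lint_rot A _ (hm.enorm.pow_const q), wm_lint _ ((pot_meas ν a ha).pow_const q)]
    congr 1
    exact lintegral_congr fun z => mul_comm _ _
  constructor
  · rw [lint_rot A _ hm.enorm]
    have h1 := (hold_wm (q := q) (by linarith) _ hfm.enorm).trans
      (mul_le_mul_left (le_self_add.trans hN) _)
    have h2 : (∫⁻ z, ‖h (rot A (ster z))‖ₑ ∂wm) ^ q ≤ ENNReal.ofReal (4 * Real.pi * M) ^ q := by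
      refine h1.trans ?_
      rw [ENNReal.ofReal_rpow_of_nonneg (by positivity) (by linarith),
        ENNReal.ofReal_rpow_of_nonneg (by positivity) hq0.le, ← ENNReal.ofReal_mul hMq]
      apply ENNReal.ofReal_le_ofReal
      rw [Real.mul_rpow (by positivity) hM, mul_comm]
      refine mul_le_mul_of_nonneg_right ?_ hMq
      exact Real.rpow_le_rpow_of_exponent_le (by linarith) (by linarith)
    refine ((ENNReal.rpow_le_rpow_iff hq0).1 h2).trans (ENNReal.ofReal_le_ofReal ?_)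
    have : 0 ≤ C1 * M := by positivity
    linarith
  · have h3 : ∀ ξ, ‖∫ x, cexp (-(2 * Real.pi * ⟪(x : E3), ξ⟫ : ℝ) * I) * h x ∂sig‖ₑ ^ q =
        (fun x => ‖ES (fun z => h (rot A (ster z))) x‖ₑ ^ q) ((2 * Real.pi) • A.symm ξ) := by
      intro ξ
      rw [ft_ES A h hm ξ]
    rw [lintegral_congr h3]
    refine (scale_E _ ((ES_meas _ hfm).enorm.pow_const q) A).trans ?_
    refine (hC1 _ a ν R hν hfm ha hs hw).trans ((mul_le_mul_right hN _).trans ?_)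
    rw [← ENNReal.ofReal_coe_nnreal, ← ENNReal.ofReal_mul (by positivity)]
    apply ENNReal.ofReal_le_ofReal
    have : 0 ≤ 4 * Real.pi * M ^ q := by positivity
    linarith

/-- the bounds for harmonic functions on caps, for the surface measure -/
theorem atomB {q : ℝ} (hq : 3 < q) : ∃ C : ℝ, 0 < C ∧ ∀ (M : ℝ), 0 ≤ M → ∀ (h : S2 → ℂ)
    (A : E3 ≃ₗᵢ[ℝ] E3) (R : ℝ) (F G : ℂ → ℂ), Measurable h → 0 < R →
    DifferentiableOn ℂ F (ball (0 : ℂ) R) → DifferentiableOn ℂ G (ball (0 : ℂ) R) →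
    (∀ s : ℝ, 0 < s → s < R → ∫ θ in Ioc (-Real.pi) Real.pi,
      ‖F (0 + s * cexp (θ * I)) + conj (G (0 + s * cexp (θ * I)))‖ ^ 4 ≤ 2 * Real.pi * M ^ 4) →
    (∀ z, h (rot A (ster z)) = (ball (0 : ℂ) R).indicator (fun z => F z + conj (G z)) z) →
    ∫⁻ x, ‖h x‖ₑ ∂sig ≤ ENNReal.ofReal (C * M) ∧
    ∫⁻ ξ, ‖∫ x, cexp (-(2 * Real.pi * ⟪(x : E3), ξ⟫ : ℝ) * I) * h x ∂sig‖ₑ ^ q ≤
      ENNReal.ofReal (C * M ^ q) := by
  obtain ⟨C, hC, hmain⟩ := harm_qS hq
  refine ⟨C, hC, ?_⟩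
  intro M hM h A R F G hm hR hF hG hb hh
  obtain ⟨h1, h2, h3⟩ := hmain R hR F G hF hG M hM hb
  have hfun : (fun z => h (rot A (ster z))) =
      (ball (0 : ℂ) R).indicator fun z => F z + conj (G z) := funext hh
  constructor
  · rw [lint_rot A _ hm.enorm]
    refine le_trans (le_of_eq (lintegral_congr fun z => ?_)) h2
    rw [hh]
  · have h4 : ∀ ξ, ‖∫ x, cexp (-(2 * Real.pi * ⟪(x : E3), ξ⟫ : ℝ) * I) * h x ∂sig‖ₑ ^ q =
        (fun x => ‖ES ((ball (0 : ℂ) R).indicator fun z => F z + conj (G z)) x‖ₑ ^ q)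
          ((2 * Real.pi) • A.symm ξ) := by
      intro ξ
      rw [ft_ES A h hm ξ, hfun]
    rw [lintegral_congr h4]
    exact (scale_E _ ((ES_meas _ h1).enorm.pow_const q) A).trans h3

end Pool.Agent.Y251.SP
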